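import Mathlib

namespace Pool.Agent.V11132.AM

open SimpleGraph

/-- The sum of the labels of the edges at the vertex `v`. -/
noncomputable def vertexSum {V : Type*} (G : SimpleGraph V) (f : Sym2 V → ℕ) (v : V) : ℕ :=
  ∑ᶠ e ∈ G.incidenceSet v, f e

/-- `f` restricts to a bijection from the edge set onto `{1, ..., m}`, with `m` the number of
edges, and its vertex sums are pairwise distinct. -/
def IsAntimagicLabelling {V : Type*} (G : SimpleGraph V) (f : Sym2 V → ℕ) : Prop :=
  Set.BijOn f G.edgeSet (Set.Icc 1 G.edgeSet.ncard) ∧ Function.Injective (vertexSum G f)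

/-- `G` has an antimagic labelling. -/
def Antimagic {V : Type*} (G : SimpleGraph V) : Prop := ∃ f, IsAntimagicLabelling G f

/-- The disjoint union of `t` paths with three vertices. -/
def copiesP3 (t : ℕ) : SimpleGraph (Fin t × Fin 3) where
  Adj x y := x.1 = y.1 ∧ (pathGraph 3).Adj x.2 y.2
  symm := ⟨fun _ _ h => ⟨h.1.symm, h.2.symm⟩⟩
  loopless := ⟨fun x h => (pathGraph 3).loopless.irrefl x.2 h.2⟩

/-- `tau G`: the supremum of the `t` such that `G` together with `t'` copies of the path with
three vertices is antimagic for all `t' ≤ t`; it is `⊥` when there is no such `t`. -/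
noncomputable def tau {V : Type*} (G : SimpleGraph V) : WithBot ℕ∞ :=
  ⨆ t ∈ {t : ℕ | ∀ t' ≤ t, Antimagic (G ⊕g copiesP3 t')}, ((t : ℕ∞) : WithBot ℕ∞)

section Count

variable {V : Type*} [Fintype V]

theorem vertexSum_eq [DecidableEq V] (G : SimpleGraph V) [DecidableRel G.Adj] (f : Sym2 V → ℕ)
    (v : V) : vertexSum G f v = ∑ w, if G.Adj v w then f s(v, w) else 0 := by
  have h : G.incidenceSet v = (fun w => s(v, w)) '' (G.neighborSet v) := by
    ext e
    constructor
    · rintro ⟨he, hv⟩
      obtain ⟨w, rfl⟩ := Sym2.mem_iff_exists.1 hv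
      exact ⟨w, he, rfl⟩
    · rintro ⟨w, hw, rfl⟩
      exact ⟨hw, Sym2.mem_mk_left _ _⟩
  unfold vertexSum
  rw [h, finsum_mem_image]
  · rw [← Finset.sum_filter]
    apply finsum_mem_eq_sum_of_inter_support_eq
    ext w
    simp
  · intro a _ b _ hab
    exact Sym2.congr_right.1 hab

theorem sum_vertexSum (G : SimpleGraph V) (f : Sym2 V → ℕ) :
    ∑ v, vertexSum G f v = 2 * ∑ᶠ e ∈ G.edgeSet, f e := by
  classical
  have h1 : ∀ v, vertexSum G f v = ∑ e : Sym2 V, G.incMatrix ℕ v e * f e := by
    intro v
    unfold vertexSum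
    rw [finsum_mem_eq_sum_of_inter_support_eq (t := Finset.univ.filter (fun e => e ∈ G.incidenceSet v))]
    · rw [Finset.sum_filter]
      refine Finset.sum_congr rfl fun e _ => ?_
      rw [incMatrix_apply']
      split_ifs <;> simp
    · ext e; simp
  simp_rw [h1]
  rw [Finset.sum_comm]
  rw [finsum_mem_eq_sum_of_inter_support_eq (t := Finset.univ.filter (fun e => e ∈ G.edgeSet))]
  · rw [Finset.sum_filter, Finset.mul_sum]
    refine Finset.sum_congr rfl fun e _ => ?_
    rw [← Finset.sum_mul]
    split_ifs with he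
    · rw [sum_incMatrix_apply_of_mem_edgeSet G he]
    · rw [sum_incMatrix_apply_of_notMem_edgeSet G he]; simp
  · ext e; simp

omit [Fintype V] in
theorem sum_labels (G : SimpleGraph V) (f : Sym2 V → ℕ) (N : ℕ)
    (hf : Set.BijOn f G.edgeSet (Set.Icc 1 N)) :
    2 * ∑ᶠ e ∈ G.edgeSet, f e = N * (N + 1) := by
  have h : ∑ᶠ e ∈ G.edgeSet, f e = ∑ᶠ k ∈ Set.Icc 1 N, k := by
    rw [← hf.image_eq, finsum_mem_image hf.injOn]
  rw [h]
  have h2 : ∑ᶠ k ∈ Set.Icc 1 N, k = ∑ k ∈ Finset.Icc 1 N, k := by
    apply finsum_mem_eq_sum_of_inter_support_eq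
    ext k; simp
  rw [h2]
  have h3 : ∑ k ∈ Finset.Icc 1 N, k = ∑ k ∈ Finset.range (N + 1), k := by
    rw [Finset.range_eq_Ico]
    rw [Finset.sum_eq_sum_Ico_succ_bot (by omega : 0 < N + 1)]
    simp only [zero_add]
    rfl
  rw [h3, mul_comm, Finset.sum_range_id_mul_two]
  simp only [Nat.add_sub_cancel]
  ring

/-- distinct positive integers -/
theorem card_sum_bound {α : Type*} (T : Finset α) (s : α → ℕ)
    (hs : Set.InjOn s T) (hp : ∀ a ∈ T, 1 ≤ s a) :
    T.card * (T.card + 1) ≤ 2 * ∑ a ∈ T, s a := by
  classical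
  induction hn : T.card generalizing T with
  | zero => simp
  | succ n ih =>
    have hne : T.Nonempty := by
      rw [← Finset.card_pos]; omega
    obtain ⟨a, ha, hmax⟩ := T.exists_max_image s hne
    have hca : (T.erase a).card = n := by
      rw [Finset.card_erase_of_mem ha]; omega
    have h1 := ih (T.erase a) (hs.mono (by simp)) (fun b hb => hp b (Finset.mem_of_mem_erase hb)) hca
    have h2 : n + 1 ≤ s a := by
      have : (T.image s).card = n + 1 := by
        rw [Finset.card_image_of_injOn hs, hn]
      have h3 : T.image s ⊆ Finset.Icc 1 (s a) := by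
        intro k hk
        obtain ⟨b, hb, rfl⟩ := Finset.mem_image.1 hk
        exact Finset.mem_Icc.2 ⟨hp b hb, hmax b hb⟩
      have h4 := Finset.card_le_card h3
      rw [Nat.card_Icc, this] at h4
      omega
    rw [← Finset.add_sum_erase _ _ ha]
    nlinarith

theorem vertexSum_pos (G : SimpleGraph V) (f : Sym2 V → ℕ) (v : V)
    (hf : ∀ e ∈ G.edgeSet, 1 ≤ f e) (hv : ∃ w, G.Adj v w) : 1 ≤ vertexSum G f v := by
  classical
  obtain ⟨w, hw⟩ := hv
  rw [vertexSum_eq]
  have := Finset.single_le_sum (f := fun w => if G.Adj v w then f s(v, w) else 0)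
    (fun i _ => Nat.zero_le _) (Finset.mem_univ w)
  simp only [hw, if_true] at this
  exact (hf _ hw).trans this

/-- first counting bound -/
theorem count_one (G : SimpleGraph V) (hiso : ∀ v, ∃ w, G.Adj v w) (hG : Antimagic G) :
    Fintype.card V * (Fintype.card V + 1) ≤ 2 * (G.edgeSet.ncard * (G.edgeSet.ncard + 1)) := by
  obtain ⟨f, hf, hinj⟩ := hG
  have hpos : ∀ e ∈ G.edgeSet, 1 ≤ f e := fun e he => (hf.mapsTo he).1
  have h1 := card_sum_bound (Finset.univ : Finset V) (vertexSum G f) hinj.injOn
    (fun v _ => vertexSum_pos G f v hpos (hiso v))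
  rw [sum_vertexSum, sum_labels G f _ hf, Finset.card_univ] at h1
  exact h1

/-- second counting bound, with one vertex `c` of degree `r` -/
theorem count_two (G : SimpleGraph V) (hiso : ∀ v, ∃ w, G.Adj v w) (hG : Antimagic G) (c : V)
    (r : ℕ) (hr : (G.neighborSet c).ncard = r) :
    (Fintype.card V - 1) * Fintype.card V + r * (r + 1) ≤
      2 * (G.edgeSet.ncard * (G.edgeSet.ncard + 1)) := by
  classical
  obtain ⟨f, hf, hinj⟩ := hG
  have hpos : ∀ e ∈ G.edgeSet, 1 ≤ f e := fun e he => (hf.mapsTo he).1
  have h1 := card_sum_bound (Finset.univ.erase c : Finset V) (vertexSum G f) hinj.injOn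
    (fun v _ => vertexSum_pos G f v hpos (hiso v))
  have hcard : (Finset.univ.erase c : Finset V).card = Fintype.card V - 1 := by
    rw [Finset.card_erase_of_mem (Finset.mem_univ c), Finset.card_univ]
  have hV : 1 ≤ Fintype.card V := Fintype.card_pos_iff.2 ⟨c⟩
  rw [hcard, Nat.sub_add_cancel hV] at h1
  have h2 : r * (r + 1) ≤ 2 * vertexSum G f c := by
    have h3 := card_sum_bound (Finset.univ.filter (fun w => G.Adj c w)) (fun w => f s(c, w))
      (by
        intro a ha b hb hab
        simp only [Finset.coe_filter, Finset.mem_univ, true_and, Set.mem_ofPred_eq] at ha hb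
        have := hf.injOn (show s(c, a) ∈ G.edgeSet from ha) (show s(c, b) ∈ G.edgeSet from hb) hab
        exact Sym2.congr_right.1 this)
      (by
        intro a ha
        simp only [Finset.mem_filter, Finset.mem_univ, true_and] at ha
        exact hpos _ ha)
    have h4 : (Finset.univ.filter (fun w => G.Adj c w)).card = r := by
      rw [← hr, ← Set.ncard_coe_finset]
      congr 1
      ext w; simp
    rw [h4] at h3
    rw [vertexSum_eq, ← Finset.sum_filter]
    exact h3
  have h5 := Finset.add_sum_erase Finset.univ (vertexSum G f) (Finset.mem_univ c)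
  have h6 := sum_vertexSum G f
  rw [sum_labels G f _ hf] at h6
  rw [← h5] at h6
  nlinarith

end Count


section Enum

/-- `E` enumerates the edges of `G` without repetition. -/
def Enum {V ι : Type*} (G : SimpleGraph V) (E : ι → Sym2 V) : Prop :=
  Function.Injective E ∧ Set.range E = G.edgeSet

variable {V W ι κ : Type*} {G : SimpleGraph V} {H : SimpleGraph W} {E : ι → Sym2 V}
  {F : κ → Sym2 W}

theorem Enum.ncard [Fintype ι] (h : Enum G E) : G.edgeSet.ncard = Fintype.card ι := by
  rw [← h.2, ← Set.image_univ, Set.ncard_image_of_injective _ h.1, Set.ncard_univ,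
    Nat.card_eq_fintype_card]

theorem Enum.sum (hE : Enum G E) (hF : Enum H F) :
    Enum (G ⊕g H) (Sum.elim (fun i => Sym2.map Sum.inl (E i))
      (fun j => Sym2.map Sum.inr (F j)) : ι ⊕ κ → Sym2 (V ⊕ W)) := by
  constructor
  · have key : ∀ (e : Sym2 V) (e' : Sym2 W), Sym2.map (Sum.inl : V → V ⊕ W) e ≠
        Sym2.map (Sum.inr : W → V ⊕ W) e' := by
      intro e e'
      induction e with
      | _ x y =>
        induction e' with
        | _ z w => simp
    rintro (i | i) (j | j) hij
    · simp only [Sum.elim_inl] at hij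
      rw [hE.1 (Sym2.map.injective Sum.inl_injective hij)]
    · exact absurd hij (key _ _)
    · exact absurd hij.symm (key _ _)
    · simp only [Sum.elim_inr] at hij
      rw [hF.1 (Sym2.map.injective Sum.inr_injective hij)]
  · ext e
    constructor
    · rintro ⟨i | j, rfl⟩
      · have : E i ∈ G.edgeSet := hE.2 ▸ Set.mem_range_self i
        simp only [Sum.elim_inl]
        generalize E i = e at this
        induction e with
        | _ x y => simpa using this
      · have : F j ∈ H.edgeSet := hF.2 ▸ Set.mem_range_self j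
        simp only [Sum.elim_inr]
        generalize F j = e at this
        induction e with
        | _ x y => simpa using this
    · intro he
      induction e with
      | _ x y =>
        rcases x with x | x <;> rcases y with y | y
        · have h1 : s(x, y) ∈ G.edgeSet := by simpa using he
          rw [← hE.2] at h1
          obtain ⟨i, hi⟩ := h1
          exact ⟨Sum.inl i, by simp [hi]⟩
        · simp at he
        · simp at he
        · have h1 : s(x, y) ∈ H.edgeSet := by simpa using he
          rw [← hF.2] at h1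
          obtain ⟨i, hi⟩ := h1
          exact ⟨Sum.inr i, by simp [hi]⟩

theorem enum_star (n : ℕ) : Enum (completeBipartiteGraph (Fin 1) (Fin n))
    (fun i : Fin n => s(Sum.inl 0, Sum.inr i)) := by
  constructor
  · intro i j hij
    simpa using hij
  · ext e
    induction e with
    | _ x y =>
      constructor
      · rintro ⟨i, hi⟩
        rw [← hi]
        simp
      · intro h
        rcases x with x | x <;> rcases y with y | y
        · simp at h
        · exact ⟨y, by rw [Subsingleton.elim x 0]⟩
        · exact ⟨x, by rw [Subsingleton.elim y 0]; exact Sym2.eq_swap⟩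
        · simp at h

theorem enum_cycle4 : Enum (cycleGraph 4) (fun i : Fin 4 => s(i, i + 1)) := by
  constructor
  · intro i j hij
    revert i j
    decide
  · ext e
    induction e with
    | _ x y =>
      simp only [Set.mem_range, mem_edgeSet]
      revert x y
      decide

theorem enum_P3 (t : ℕ) : Enum (copiesP3 t)
    (fun x : Fin t × Fin 2 => s((x.1, x.2.castSucc), (x.1, x.2.succ))) := by
  constructor
  · rintro ⟨i, p⟩ ⟨j, q⟩ hij
    simp only [Sym2.eq_iff, Prod.mk.injEq] at hij
    rcases hij with ⟨⟨h1, h2⟩, -⟩ | ⟨⟨h1, h2⟩, -, h3⟩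
    · rw [h1, Fin.castSucc_injective _ h2]
    · exfalso
      revert p q
      decide
  · ext e
    induction e with
    | _ x y =>
      obtain ⟨i, p⟩ := x
      obtain ⟨j, q⟩ := y
      simp only [Set.mem_range, mem_edgeSet, Prod.exists]
      constructor
      · rintro ⟨a, b, h⟩
        simp only [Sym2.eq_iff, Prod.mk.injEq] at h
        rcases h with ⟨⟨rfl, rfl⟩, rfl, rfl⟩ | ⟨⟨rfl, rfl⟩, rfl, rfl⟩
        · refine ⟨rfl, ?_⟩
          rw [pathGraph_adj]
          left; simp
        · refine ⟨rfl, ?_⟩
          rw [pathGraph_adj]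
          right; simp
      · rintro ⟨h, hpq⟩
        simp only at h hpq
        subst h
        rw [pathGraph_adj] at hpq
        rcases hpq with hpq | hpq
        · refine ⟨i, ⟨p.1, by omega⟩, ?_⟩
          rw [Sym2.eq_iff]
          left
          constructor
          · rfl
          · simp only [Prod.mk.injEq, true_and]
            ext; simp; omega
        · refine ⟨i, ⟨q.1, by omega⟩, ?_⟩
          rw [Sym2.eq_iff]
          right
          constructor
          · rfl
          · simp only [Prod.mk.injEq, true_and]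
            ext; simp; omega

theorem antimagic_of_enum [Fintype ι] [DecidableEq V] (hE : Enum G E)
    (L : ι → ℕ) (hL : Function.Injective L) (hr : ∀ i, 1 ≤ L i ∧ L i ≤ Fintype.card ι)
    (S : V → ℕ) (hS : ∀ v, ∑ i, (if v ∈ E i then L i else 0) = S v)
    (hinj : Function.Injective S) : Antimagic G := by
  classical
  refine ⟨Function.extend E L 0, ?_, ?_⟩
  · rw [hE.ncard, ← hE.2]
    have himg : Function.extend E L 0 '' Set.range E = Set.range L := by
      ext k
      simp [hE.1.extend_apply]
    have hio : Set.InjOn (Function.extend E L 0) (Set.range E) := by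
      rintro _ ⟨i, rfl⟩ _ ⟨j, rfl⟩ h
      rw [hE.1.extend_apply, hE.1.extend_apply] at h
      rw [hL h]
    have : Set.range L = Set.Icc 1 (Fintype.card ι) := by
      refine Set.eq_of_subset_of_ncard_le ?_ ?_ (Set.finite_Icc _ _)
      · rintro _ ⟨i, rfl⟩
        exact hr i
      · rw [← Set.image_univ, Set.ncard_image_of_injective _ hL, Set.ncard_univ,
          Nat.card_eq_fintype_card]
        rw [← Nat.card_coe_set_eq, Nat.card_eq_fintype_card]
        simp
    rw [← this, ← himg]
    exact hio.bijOn_image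
  · have : vertexSum G (Function.extend E L 0) = S := by
      funext v
      rw [← hS v, ← Finset.sum_filter]
      unfold vertexSum
      have h1 : G.incidenceSet v = E '' {i | v ∈ E i} := by
        ext e
        constructor
        · rintro ⟨he, hv⟩
          rw [← hE.2] at he
          obtain ⟨i, rfl⟩ := he
          exact ⟨i, hv, rfl⟩
        · rintro ⟨i, hi, rfl⟩
          exact ⟨hE.2 ▸ Set.mem_range_self i, hi⟩
      rw [h1, finsum_mem_image hE.1.injOn]
      simp_rw [hE.1.extend_apply]
      apply finsum_mem_eq_sum_of_inter_support_eq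
      ext i
      simp
    rw [this]
    exact hinj

/-- a fast test that the entries of a list are pairwise distinct and not in the mask `m` -/
def nodupCheck : List ℕ → ℕ → Bool
  | [], _ => true
  | x :: l, m => !(m.testBit x) && nodupCheck l (m ||| (1 <<< x))

theorem nodup_of_check : ∀ (l : List ℕ) (m : ℕ), nodupCheck l m = true →
    l.Nodup ∧ ∀ x ∈ l, m.testBit x = false
  | [], m, _ => by simp
  | x :: l, m, h => by
    simp only [nodupCheck, Bool.and_eq_true, Bool.not_eq_true'] at h
    obtain ⟨h1, h2⟩ := h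
    obtain ⟨h3, h4⟩ := nodup_of_check l _ h2
    have h5 : ∀ y ∈ l, y ≠ x ∧ m.testBit y = false := by
      intro y hy
      have h6 := h4 y hy
      rw [Nat.testBit_or] at h6
      simp only [Bool.or_eq_false_iff] at h6
      refine ⟨?_, h6.1⟩
      rintro rfl
      simp [Nat.testBit_shiftLeft] at h6
    refine ⟨List.nodup_cons.2 ⟨fun hx => (h5 x hx).1 rfl, h3⟩, ?_⟩
    intro y hy
    rcases List.mem_cons.1 hy with rfl | hy
    · exact h1
    · exact (h5 y hy).2

theorem inj_of_check {ι : Type*} (l : List ι) (hl : ∀ i, i ∈ l) (F : ι → ℕ)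
    (h : nodupCheck (l.map F) 0 = true) : Function.Injective F := by
  intro x y hxy
  exact List.inj_on_of_nodup_map (nodup_of_check _ _ h).1 (hl x) (hl y) hxy

end Enum

section Tau

theorem p3_no_iso {V : Type*} (G : SimpleGraph V) {t : ℕ} (i : Fin t) (k : Fin 3) :
    ∃ w, (G ⊕g copiesP3 t).Adj (Sum.inr (i, k)) w := by
  fin_cases k
  · refine ⟨Sum.inr (i, 1), ?_⟩
    simp [copiesP3, pathGraph_adj]
  · refine ⟨Sum.inr (i, 0), ?_⟩
    simp [copiesP3, pathGraph_adj]
  · refine ⟨Sum.inr (i, 1), ?_⟩
    simp [copiesP3, pathGraph_adj]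

variable {V : Type*} {G : SimpleGraph V}

theorem tau_le {s : ℕ} (h : ¬ Antimagic (G ⊕g copiesP3 (s + 1))) :
    tau G ≤ ((s : ℕ∞) : WithBot ℕ∞) := by
  unfold tau
  refine iSup₂_le fun t ht => ?_
  have : t ≤ s := by
    by_contra hc
    exact h (ht (s + 1) (by omega))
  exact_mod_cast this

theorem le_tau {s : ℕ} (h : ∀ t ≤ s, Antimagic (G ⊕g copiesP3 t)) :
    ((s : ℕ∞) : WithBot ℕ∞) ≤ tau G := by
  unfold tau
  exact le_iSup₂ (f := fun (t : ℕ) (_ : t ∈ {t : ℕ | ∀ t' ≤ t, Antimagic (G ⊕g copiesP3 t')}) =>
    ((t : ℕ∞) : WithBot ℕ∞)) s h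

end Tau

end Pool.Agent.V11132.AM
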