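import Mathlib

namespace Pool.Agent.V11132.NSum

open Finset

section Abstract

variable {C : Type} [Fintype C] [LinearOrder C] (d : C → ℕ)

/-- number of odd cycles -/
def oo : ℕ := (univ.filter (fun j => Odd (d j))).card
/-- number of odd cycles active at a level -/
def rr (l : ℕ) : ℕ := (univ.filter (fun j => Odd (d j) ∧ l ≤ d j / 2)).card
def lo (c : C) (l : ℕ) : ℕ := (univ.filter (fun j => Odd (d j) ∧ l ≤ d j / 2 ∧ j < c)).card
def hi (c : C) (l : ℕ) : ℕ := (univ.filter (fun j => Odd (d j) ∧ l ≤ d j / 2 ∧ c < j)).card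
def be (l : ℕ) : ℕ := ∑ x ∈ Finset.Ico 1 l, rr d x
def AA : ℕ := ∑ c with Odd (d c), d c / 2
def ga (c : C) : ℕ := AA d + ∑ j with (¬ Odd (d j) ∧ j < c), d j / 2
def HH : ℕ := ∑ c, d c / 2

omit [LinearOrder C] in
theorem total : ∑ c, d c = 2 * HH d + oo d := by
  unfold HH oo
  rw [Finset.card_filter, Finset.mul_sum, ← Finset.sum_add_distrib]
  refine Finset.sum_congr rfl fun c _ => ?_
  split_ifs with h
  · obtain ⟨m, hm⟩ := h; omega
  · rw [Nat.not_odd_iff_even] at h; obtain ⟨m, hm⟩ := h; omega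

omit [LinearOrder C] in
theorem rr_le (l : ℕ) : rr d l ≤ oo d :=
  Finset.card_le_card fun j hj => by
    simp only [mem_filter, mem_univ, true_and] at hj ⊢; exact hj.1

theorem hi_lt {c : C} {l : ℕ} (h1 : Odd (d c)) (h2 : l ≤ d c / 2) : hi d c l < rr d l := by
  apply Finset.card_lt_card
  rw [Finset.ssubset_iff_of_subset]
  · exact ⟨c, by simp [h1, h2], by simp⟩
  · intro j hj
    simp only [mem_filter, mem_univ, true_and] at hj ⊢; exact ⟨hj.1, hj.2.1⟩

theorem lo_lt {c : C} {l : ℕ} (h1 : Odd (d c)) (h2 : l ≤ d c / 2) : lo d c l < rr d l := by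
  apply Finset.card_lt_card
  rw [Finset.ssubset_iff_of_subset]
  · exact ⟨c, by simp [h1, h2], by simp⟩
  · intro j hj
    simp only [mem_filter, mem_univ, true_and] at hj ⊢; exact ⟨hj.1, hj.2.1⟩

theorem hi_inj {c c' : C} {l : ℕ} (h1 : Odd (d c)) (h2 : l ≤ d c / 2) (h3 : Odd (d c'))
    (h4 : l ≤ d c' / 2) (h : hi d c l = hi d c' l) : c = c' := by
  have key : ∀ {a b : C}, Odd (d b) → l ≤ d b / 2 → a < b → hi d b l < hi d a l := by
    intro a b hb hb2 hab
    apply Finset.card_lt_card
    rw [Finset.ssubset_iff_of_subset]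
    · exact ⟨b, by simp [hb, hb2, hab], by simp⟩
    · intro j hj
      simp only [mem_filter, mem_univ, true_and] at hj ⊢
      exact ⟨hj.1, hj.2.1, hab.trans hj.2.2⟩
  rcases lt_trichotomy c c' with hlt | heq | hlt
  · have := key h3 h4 hlt; omega
  · exact heq
  · have := key h1 h2 hlt; omega

theorem lo_inj {c c' : C} {l : ℕ} (h1 : Odd (d c)) (h2 : l ≤ d c / 2) (h3 : Odd (d c'))
    (h4 : l ≤ d c' / 2) (h : lo d c l = lo d c' l) : c = c' := by
  have key : ∀ {a b : C}, Odd (d a) → l ≤ d a / 2 → a < b → lo d a l < lo d b l := by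
    intro a b hb hb2 hab
    apply Finset.card_lt_card
    rw [Finset.ssubset_iff_of_subset]
    · exact ⟨a, by simp [hb, hb2, hab], by simp⟩
    · intro j hj
      simp only [mem_filter, mem_univ, true_and] at hj ⊢
      exact ⟨hj.1, hj.2.1, hj.2.2.trans hab⟩
  rcases lt_trichotomy c c' with hlt | heq | hlt
  · have := key h1 h2 hlt; omega
  · exact heq
  · have := key h3 h4 hlt; omega

/-- `lo + hi + 1` at level `1` counts all odd cycles. -/
theorem lo_add_hi {c : C} {l : ℕ} (h1 : Odd (d c)) (h2 : l ≤ d c / 2) :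
    lo d c l + hi d c l + 1 = rr d l := by
  unfold lo hi rr
  rw [← Finset.card_union_of_disjoint, ← Finset.card_insert_of_notMem (a := c)]
  · congr 1
    ext j
    simp only [mem_insert, mem_union, mem_filter, mem_univ, true_and]
    constructor
    · rintro (rfl | h | h)
      · exact ⟨h1, h2⟩
      · exact ⟨h.1, h.2.1⟩
      · exact ⟨h.1, h.2.1⟩
    · rintro ⟨h3, h4⟩
      rcases lt_trichotomy j c with h | h | h
      · exact Or.inr (Or.inl ⟨h3, h4, h⟩)
      · exact Or.inl h
      · exact Or.inr (Or.inr ⟨h3, h4, h⟩)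
  · simp
  · rw [Finset.disjoint_left]
    intro j hj hj2
    simp only [mem_filter, mem_univ, true_and] at hj hj2
    exact absurd (hj.2.2.trans hj2.2.2) (lt_irrefl _)

omit [LinearOrder C] in
theorem rr_small {l : ℕ} (hd : ∀ c, 2 ≤ d c) (hl : l ≤ 1) : rr d l = oo d := by
  unfold rr oo
  congr 1
  ext j
  simp only [mem_filter, mem_univ, true_and, and_iff_left_iff_imp]
  intro h
  have := hd j
  omega

theorem lo_small {c : C} {l : ℕ} (hd : ∀ c, 2 ≤ d c) (hl : l ≤ 1) : lo d c l = lo d c 0 := by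
  unfold lo
  congr 1
  ext j
  simp only [mem_filter, mem_univ, true_and]
  have := hd j
  constructor
  · rintro ⟨h1, h2, h3⟩
    exact ⟨h1, by omega, h3⟩
  · rintro ⟨h1, h2, h3⟩
    exact ⟨h1, by omega, h3⟩

theorem hi_mono (c : C) (l : ℕ) : hi d c (l + 1) ≤ hi d c l ∧ hi d c l ≤ rr d l := by
  constructor
  · apply Finset.card_le_card
    intro j hj
    simp only [mem_filter, mem_univ, true_and] at hj ⊢
    exact ⟨hj.1, by omega, hj.2.2⟩
  · apply Finset.card_le_card
    intro j hj
    simp only [mem_filter, mem_univ, true_and] at hj ⊢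
    exact ⟨hj.1, hj.2.1⟩

theorem lo_mono (c : C) (l : ℕ) : lo d c (l + 1) ≤ lo d c l ∧ lo d c l ≤ rr d l := by
  constructor
  · apply Finset.card_le_card
    intro j hj
    simp only [mem_filter, mem_univ, true_and] at hj ⊢
    exact ⟨hj.1, by omega, hj.2.2⟩
  · apply Finset.card_le_card
    intro j hj
    simp only [mem_filter, mem_univ, true_and] at hj ⊢
    exact ⟨hj.1, hj.2.1⟩

omit [LinearOrder C] in
theorem be_succ {l : ℕ} (hl : 1 ≤ l) : be d (l + 1) = be d l + rr d l := by
  unfold be
  rw [Finset.sum_Ico_succ_top hl]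

omit [LinearOrder C] in
theorem be_mono {l m : ℕ} (h : l ≤ m) : be d l ≤ be d m := by
  unfold be
  apply Finset.sum_le_sum_of_subset
  exact Finset.Ico_subset_Ico_right h

omit [LinearOrder C] in
theorem be_le (l : ℕ) : be d l ≤ AA d := by
  unfold be AA rr
  simp_rw [Finset.card_filter]
  rw [Finset.sum_comm, Finset.sum_filter]
  refine Finset.sum_le_sum fun c _ => ?_
  split_ifs with h
  · simp only [h, true_and]
    rw [← Finset.card_filter]
    calc _ ≤ (Finset.Icc 1 (d c / 2)).card := by
            apply Finset.card_le_card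
            intro x hx
            simp only [mem_filter, mem_Ico, mem_Icc] at hx ⊢
            omega
      _ = d c / 2 := by simp
  · simp [h]

theorem be_block {l m x y : ℕ} (hl : 1 ≤ l) (hm : 1 ≤ m) (hx : x < rr d l) (hy : y < rr d m)
    (h : be d l + x = be d m + y) : l = m := by
  rcases lt_trichotomy l m with h1 | h1 | h1
  · have h2 := be_mono d (show l + 1 ≤ m from h1)
    rw [be_succ d hl] at h2; omega
  · exact h1
  · have h2 := be_mono d (show m + 1 ≤ l from h1)
    rw [be_succ d hm] at h2; omega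

omit [LinearOrder C] in
theorem AA_le : AA d ≤ HH d := by
  unfold AA HH
  exact Finset.sum_le_sum_of_subset (Finset.filter_subset _ _)

theorem ga_step {c c' : C} (h1 : ¬ Odd (d c)) (hlt : c < c') : ga d c + d c / 2 ≤ ga d c' := by
  unfold ga
  rw [add_assoc]
  apply Nat.add_le_add_left
  have : (univ.filter (fun j => ¬ Odd (d j) ∧ j < c)) ∪ {c} ⊆
      univ.filter (fun j => ¬ Odd (d j) ∧ j < c') := by
    intro j hj
    simp only [mem_union, mem_filter, mem_univ, true_and, mem_singleton] at hj ⊢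
    rcases hj with h | rfl
    · exact ⟨h.1, h.2.trans hlt⟩
    · exact ⟨h1, hlt⟩
  refine le_trans ?_ (Finset.sum_le_sum_of_subset this)
  rw [Finset.sum_union]
  · simp
  · simp

theorem ga_le {c : C} (h1 : ¬ Odd (d c)) : ga d c + d c / 2 ≤ HH d := by
  unfold ga AA HH
  have h2 : ∑ c, d c / 2 = ∑ c with Odd (d c), d c / 2 + ∑ c with ¬ Odd (d c), d c / 2 :=
    (Finset.sum_filter_add_sum_filter_not _ _ _).symm
  rw [h2, add_assoc]
  apply Nat.add_le_add_left
  have : (univ.filter (fun j => ¬ Odd (d j) ∧ j < c)) ∪ {c} ⊆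
      univ.filter (fun j => ¬ Odd (d j)) := by
    intro j hj
    simp only [mem_union, mem_filter, mem_univ, true_and, mem_singleton] at hj ⊢
    rcases hj with h | rfl
    · exact h.1
    · exact h1
  refine le_trans ?_ (Finset.sum_le_sum_of_subset this)
  rw [Finset.sum_union]
  · simp
  · simp

theorem ga_block {c c' : C} {x y : ℕ} (h1 : ¬ Odd (d c)) (h2 : ¬ Odd (d c')) (hx : x < d c / 2)
    (hy : y < d c' / 2) (h : ga d c + x = ga d c' + y) : c = c' := by
  rcases lt_trichotomy c c' with h3 | h3 | h3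
  · have := ga_step d h1 h3; omega
  · exact h3
  · have := ga_step d h2 h3; omega

/-- the outer index of position `p` of cycle `c` -/
def uu (c : C) (p : ℕ) : ℕ :=
  if Odd (d c) then
    if p ≤ d c / 2 then be d p + hi d c p else be d (d c - p) + lo d c (d c - p)
  else ga d c + (if p < d c / 2 then p else d c - 1 - p)

/-- the labelling -/
def FF (c : C) (p : ℕ) : ℕ :=
  if Odd (d c) then
    if p = 0 then HH d + 1 + lo d c 0
    else if Odd p then HH d + oo d + 1 + uu d c p else HH d - uu d c p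
  else if Odd p then HH d - uu d c p else HH d + oo d + 1 + uu d c p

theorem uu_lt_odd {c : C} {p : ℕ} (h : Odd (d c)) (h0 : p ≠ 0) (hp : p < d c) :
    uu d c p < AA d := by
  unfold uu
  rw [if_pos h]
  split_ifs with h1
  · have h2 := be_le d (p + 1)
    rw [be_succ d (by omega)] at h2
    have := hi_lt d h h1
    omega
  · have h2 := be_le d (d c - p + 1)
    rw [be_succ d (by omega)] at h2
    obtain ⟨m, hm⟩ := h
    have := lo_lt d (c := c) (l := d c - p) ⟨m, hm⟩ (by omega)
    omega

theorem uu_lt {c : C} {p : ℕ} (h0 : Odd (d c) → p ≠ 0) (hp : p < d c) : uu d c p < HH d := by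
  by_cases h : Odd (d c)
  · exact (uu_lt_odd d h (h0 h) hp).trans_le (AA_le d)
  · have h2 := ga_le d h
    unfold uu
    rw [if_neg h]
    rw [Nat.not_odd_iff_even] at h
    obtain ⟨m, hm⟩ := h
    split_ifs with h1 <;> omega

theorem FF_pos {c : C} {p : ℕ} (hp : p < d c) : 1 ≤ FF d c p := by
  unfold FF
  have := uu_lt d (c := c) (p := p)
  split_ifs with h1 h2 h3 h3
  · omega
  · omega
  · have := this (fun _ => h2) hp; omega
  · have := this (fun h => absurd h h1) hp; omega
  · omega

theorem FF_le {c : C} {p : ℕ} (hp : p < d c) : FF d c p ≤ ∑ c, d c := by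
  rw [total]
  unfold FF
  have := uu_lt d (c := c) (p := p)
  split_ifs with h1 h2 h3 h3
  · have := lo_lt d h1 (l := 0) (Nat.zero_le _)
    have := rr_le d 0
    omega
  · have := this (fun _ => h2) hp; omega
  · omega
  · omega
  · have := this (fun h => absurd h h1) hp; omega

theorem FF_mid {c : C} (h : Odd (d c)) : FF d c 0 = HH d + 1 + lo d c 0 := by
  unfold FF; rw [if_pos h, if_pos rfl]

theorem FF_plus {c : C} {p : ℕ} (h0 : Odd (d c) → p ≠ 0) (h : Odd (d c) ↔ Odd p) :
    FF d c p = HH d + oo d + 1 + uu d c p := by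
  unfold FF
  by_cases h1 : Odd (d c)
  · rw [if_pos h1, if_neg (h0 h1), if_pos (h.1 h1)]
  · rw [if_neg h1, if_neg (fun h2 => h1 (h.2 h2))]

theorem FF_minus {c : C} {p : ℕ} (h0 : Odd (d c) → p ≠ 0) (h : ¬ (Odd (d c) ↔ Odd p)) :
    FF d c p = HH d - uu d c p := by
  unfold FF
  by_cases h1 : Odd (d c)
  · rw [if_pos h1, if_neg (h0 h1), if_neg (fun h2 => h (iff_of_true h1 h2))]
  · rw [if_neg h1, if_pos]
    by_contra h2
    exact h (iff_of_false h1 h2)

theorem uu_inj {c c' : C} {p p' : ℕ} (h0 : Odd (d c) → p ≠ 0) (h0' : Odd (d c') → p' ≠ 0)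
    (hp : p < d c) (hp' : p' < d c')
    (hs : (Odd (d c) ↔ Odd p) ↔ (Odd (d c') ↔ Odd p')) (h : uu d c p = uu d c' p') :
    c = c' ∧ p = p' := by
  by_cases h1 : Odd (d c) <;> by_cases h2 : Odd (d c')
  · simp only [h1, h2, true_iff] at hs
    have hp0 := h0 h1
    have hp0' := h0' h2
    obtain ⟨m, hm⟩ := id h1
    obtain ⟨m', hm'⟩ := id h2
    unfold uu at h
    rw [if_pos h1, if_pos h2] at h
    split_ifs at h with h3 h4 h4
    · have h5 := be_block d (by omega) (by omega) (hi_lt d h1 h3) (hi_lt d h2 h4) h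
      subst h5
      exact ⟨hi_inj d h1 h3 h2 h4 (by omega), rfl⟩
    · have h5 := be_block d (by omega) (by omega) (hi_lt d h1 h3)
        (lo_lt d (l := d c' - p') h2 (by omega)) h
      exfalso
      have h6 : d c' = p + p' := by omega
      rw [h6, Nat.odd_add] at h2
      rw [← Nat.not_odd_iff_even, ← hs] at h2
      tauto
    · have h5 := be_block d (by omega) (by omega)
        (lo_lt d (l := d c - p) h1 (by omega)) (hi_lt d h2 h4) h
      exfalso
      have h6 : d c = p' + p := by omega
      rw [h6, Nat.odd_add] at h1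
      rw [← Nat.not_odd_iff_even, hs] at h1
      tauto
    · have h5 := be_block d (by omega) (by omega)
        (lo_lt d (l := d c - p) h1 (by omega)) (lo_lt d (l := d c' - p') h2 (by omega)) h
      rw [← h5] at h
      have h6 := lo_inj d h1 (l := d c - p) (by omega) h2 (by omega) (by omega)
      subst h6
      exact ⟨rfl, by omega⟩
  · exfalso
    have h3 := uu_lt_odd d h1 (h0 h1) hp
    rw [h] at h3
    unfold uu at h3
    rw [if_neg h2] at h3
    unfold ga at h3
    omega
  · exfalso
    have h3 := uu_lt_odd d h2 (h0' h2) hp'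
    rw [← h] at h3
    unfold uu at h3
    rw [if_neg h1] at h3
    unfold ga at h3
    omega
  · simp only [h1, h2, false_iff] at hs
    unfold uu at h
    rw [if_neg h1, if_neg h2] at h
    have h1' := h1
    have h2' := h2
    rw [Nat.not_odd_iff_even] at h1' h2'
    obtain ⟨m, hm⟩ := h1'
    obtain ⟨m', hm'⟩ := h2'
    have h5 := ga_block d h1 h2 (by split_ifs <;> omega) (by split_ifs <;> omega) h
    subst h5
    refine ⟨rfl, ?_⟩
    have h6 : (if p < d c / 2 then p else d c - 1 - p) =
      (if p' < d c / 2 then p' else d c - 1 - p') := by omega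
    have hs' : Odd p ↔ Odd p' := by tauto
    rw [Nat.odd_iff, Nat.odd_iff] at hs'
    split_ifs at h6 <;> omega

theorem FF_inj {c c' : C} {p p' : ℕ} (hp : p < d c) (hp' : p' < d c')
    (h : FF d c p = FF d c' p') : c = c' ∧ p = p' := by
  have m1 : ∀ {c : C}, Odd (d c) → lo d c 0 < oo d := by
    intro c hc
    exact (lo_lt d hc (l := 0) (Nat.zero_le _)).trans_le (rr_le d 0)
  by_cases h0 : Odd (d c) → p ≠ 0
  · by_cases h0' : Odd (d c') → p' ≠ 0
    · have l1 := uu_lt d h0 hp
      have l2 := uu_lt d h0' hp'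
      by_cases hs : (Odd (d c) ↔ Odd p) <;> by_cases hs' : (Odd (d c') ↔ Odd p')
      · rw [FF_plus d h0 hs, FF_plus d h0' hs'] at h
        exact uu_inj d h0 h0' hp hp' (iff_of_true hs hs') (by omega)
      · rw [FF_plus d h0 hs, FF_minus d h0' hs'] at h
        omega
      · rw [FF_minus d h0 hs, FF_plus d h0' hs'] at h
        omega
      · rw [FF_minus d h0 hs, FF_minus d h0' hs'] at h
        exact uu_inj d h0 h0' hp hp' (iff_of_false hs hs') (by omega)
    · push Not at h0'
      obtain ⟨h2, rfl⟩ := h0'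
      exfalso
      have l1 := uu_lt d h0 hp
      have l3 := m1 h2
      rw [FF_mid d h2] at h
      by_cases hs : (Odd (d c) ↔ Odd p)
      · rw [FF_plus d h0 hs] at h; omega
      · rw [FF_minus d h0 hs] at h; omega
  · push Not at h0
    obtain ⟨h1, rfl⟩ := h0
    by_cases h0' : Odd (d c') → p' ≠ 0
    · exfalso
      have l1 := uu_lt d h0' hp'
      have l3 := m1 h1
      rw [FF_mid d h1] at h
      by_cases hs : (Odd (d c') ↔ Odd p')
      · rw [FF_plus d h0' hs] at h; omega
      · rw [FF_minus d h0' hs] at h; omega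
    · push Not at h0'
      obtain ⟨h2, rfl⟩ := h0'
      rw [FF_mid d h1, FF_mid d h2] at h
      exact ⟨lo_inj d h1 (Nat.zero_le _) h2 (Nat.zero_le _) (by omega), rfl⟩

/-- outer vertices of opposite sign -/
theorem outer_pair {c : C} {p q s : ℕ} (h0 : Odd (d c) → p ≠ 0) (h0' : Odd (d c) → q ≠ 0)
    (hp : p < d c) (hq : q < d c) (hpq : Odd p ↔ ¬ Odd q)
    (h1 : uu d c p ≤ uu d c q + s) (h2 : uu d c q ≤ uu d c p + s) :
    FF d c p + FF d c q ≤ 2 * HH d + oo d + 1 + s ∧
      2 * HH d + oo d + 1 ≤ FF d c p + FF d c q + s := by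
  have l1 := uu_lt d h0 hp
  have l2 := uu_lt d h0' hq
  by_cases hs : (Odd (d c) ↔ Odd p)
  · have hs' : ¬ (Odd (d c) ↔ Odd q) := by tauto
    rw [FF_plus d h0 hs, FF_minus d h0' hs']
    omega
  · have hs' : (Odd (d c) ↔ Odd q) := by tauto
    rw [FF_minus d h0 hs, FF_plus d h0' hs']
    omega

theorem FF_sum (hd : ∀ c, 2 ≤ d c) {c : C} {p : ℕ} (hp : p < d c) :
    FF d c p + FF d c ((p + 1) % d c) ≤ 2 * HH d + oo d + 1 + max (oo d) 1 ∧
      2 * HH d + oo d + 1 ≤ FF d c p + FF d c ((p + 1) % d c) + max (oo d) 1 := by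
  have hs1 : oo d ≤ max (oo d) 1 := le_max_left _ _
  have hs2 : 1 ≤ max (oo d) 1 := le_max_right _ _
  generalize max (oo d) 1 = s at hs1 hs2
  by_cases h1 : Odd (d c)
  · obtain ⟨m, hm⟩ := id h1
    have hd2 := hd c
    have e1 : lo d c 1 + hi d c 1 + 1 = oo d := by
      rw [lo_add_hi d h1 (by omega), rr_small d hd le_rfl]
    have e2 : lo d c 1 = lo d c 0 := lo_small d hd le_rfl
    have e3 : be d 1 = 0 := by simp [be]
    by_cases hp0 : p = 0
    · subst hp0
      have h3 : (0 + 1) % d c = 1 := Nat.mod_eq_of_lt (by omega)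
      rw [h3, FF_mid d h1, FF_plus d (by omega) (iff_of_true h1 odd_one)]
      have h4 : uu d c 1 = hi d c 1 := by
        unfold uu
        rw [if_pos h1, if_pos (by omega), e3, zero_add]
      rw [h4]
      omega
    · by_cases hlast : p + 1 = d c
      · have h3 : (p + 1) % d c = 0 := by rw [hlast, Nat.mod_self]
        rw [h3, FF_mid d h1]
        have hpe : ¬ Odd p := by
          intro ho
          obtain ⟨k, hk⟩ := ho
          omega
        have l1 := uu_lt d (c := c) (p := p) (fun _ => hp0) hp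
        rw [FF_minus d (fun _ => hp0) (fun h => hpe (h.1 h1))]
        have h4 : uu d c p = lo d c 1 := by
          unfold uu
          rw [if_pos h1, if_neg (by omega), show d c - p = 1 by omega, e3, zero_add]
        rw [h4] at l1 ⊢
        omega
      · have h3 : (p + 1) % d c = p + 1 := Nat.mod_eq_of_lt (by omega)
        rw [h3]
        have key : uu d c p ≤ uu d c (p + 1) + oo d ∧ uu d c (p + 1) ≤ uu d c p + oo d := by
          unfold uu
          rw [if_pos h1, if_pos h1]
          by_cases h4 : p + 1 ≤ d c / 2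
          · rw [if_pos (by omega), if_pos h4, be_succ d (by omega)]
            have := hi_mono d c p
            have := rr_le d p
            omega
          · by_cases h5 : p ≤ d c / 2
            · rw [if_pos h5, if_neg h4, show d c - (p + 1) = p by omega]
              have := hi_lt d h1 h5
              have := lo_lt d h1 h5
              have := rr_le d p
              omega
            · rw [if_neg h5, if_neg h4]
              obtain ⟨l, hl⟩ : ∃ l, d c - (p + 1) = l := ⟨_, rfl⟩
              rw [hl, show d c - p = l + 1 by omega, be_succ d (by omega)]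
              have := lo_mono d c l
              have := rr_le d l
              omega
        refine outer_pair d (fun _ => hp0) (by omega) hp (by omega) ?_ (by omega) (by omega)
        rw [Nat.odd_add_one, not_not]
  · have h1' := h1
    rw [Nat.not_odd_iff_even] at h1'
    obtain ⟨m, hm⟩ := h1'
    have hd2 := hd c
    by_cases hlast : p + 1 = d c
    · have h3 : (p + 1) % d c = 0 := by rw [hlast, Nat.mod_self]
      rw [h3]
      have key : uu d c p = uu d c 0 := by
        unfold uu
        rw [if_neg h1, if_neg h1, if_neg (by omega), if_pos (by omega)]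
        omega
      refine outer_pair d (fun h => absurd h h1) (fun h => absurd h h1) hp (by omega) ?_
        (by omega) (by omega)
      have : Odd p := ⟨m - 1, by omega⟩
      simp [this]
    · have h3 : (p + 1) % d c = p + 1 := Nat.mod_eq_of_lt (by omega)
      rw [h3]
      have key : uu d c p ≤ uu d c (p + 1) + 1 ∧ uu d c (p + 1) ≤ uu d c p + 1 := by
        unfold uu
        rw [if_neg h1, if_neg h1]
        split_ifs <;> omega
      refine outer_pair d (fun h => absurd h h1) (fun h => absurd h h1) hp (by omega) ?_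
        (by omega) (by omega)
      rw [Nat.odd_add_one, not_not]

end Abstract

section Lower

/-- shift by one in every cycle -/
def nxt {ι : Type} (t : ι → ℕ) : Equiv.Perm (Σ i, Fin (t i)) :=
  Equiv.sigmaCongrRight fun i => finRotate (t i)

theorem finRotate_val {n : ℕ} (p : Fin n) : (finRotate n p).1 = (p.1 + 1) % n := by
  cases n with
  | zero => exact p.elim0
  | succ m =>
    rw [finRotate_apply, Fin.val_add]
    simp

theorem nxt_mk {ι : Type} (t : ι → ℕ) (i : ι) (p : Fin (t i)) :
    nxt t ⟨i, p⟩ = ⟨i, ⟨(p.1 + 1) % t i, Nat.mod_lt _ p.pos⟩⟩ := by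
  have : (finRotate (t i) p) = ⟨(p.1 + 1) % t i, Nat.mod_lt _ p.pos⟩ := Fin.ext (finRotate_val p)
  rw [← this]; rfl

theorem nxt_ne {ι : Type} (t : ι → ℕ) (ht : ∀ i, 2 ≤ t i) (w : Σ i, Fin (t i)) :
    nxt t w ≠ w := by
  obtain ⟨i, p⟩ := w
  rw [nxt_mk]
  intro h
  simp only [Sigma.mk.injEq, heq_eq_eq, true_and] at h
  have h1 := congrArg Fin.val h
  simp only at h1
  have := ht i
  have hp := p.2
  by_cases hl : p.1 + 1 = t i
  · rw [hl, Nat.mod_self] at h1; omega
  · rw [Nat.mod_eq_of_lt (by omega)] at h1; omega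

theorem nxt_nxt_ne {ι : Type} (t : ι → ℕ) {i : ι} (ht : 3 ≤ t i) (p : Fin (t i)) :
    nxt t (nxt t ⟨i, p⟩) ≠ ⟨i, p⟩ := by
  rw [nxt_mk, nxt_mk]
  intro h
  simp only [Sigma.mk.injEq, heq_eq_eq, true_and] at h
  have h1 := congrArg Fin.val h
  simp only at h1
  have hp := p.2
  by_cases hl : p.1 + 1 = t i
  · rw [hl, Nat.mod_self, zero_add, Nat.mod_eq_of_lt (by omega)] at h1; omega
  · rw [Nat.mod_eq_of_lt (show p.1 + 1 < t i by omega)] at h1
    by_cases hl2 : p.1 + 1 + 1 = t i
    · rw [hl2, Nat.mod_self] at h1; omega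
    · rw [Nat.mod_eq_of_lt (by omega)] at h1; omega

variable {C : Type} [Fintype C] (d : C → ℕ)

theorem indep [DecidableEq C] (T : Finset (Σ c, Fin (d c))) (hT : ∀ w ∈ T, nxt d w ∉ T) :
    2 * T.card + oo d ≤ ∑ c, d c := by
  have h1 : T.card = ∑ c, (T.filter (fun w => w.1 = c)).card :=
    Finset.card_eq_sum_card_fiberwise (fun _ _ => Finset.mem_coe.2 (Finset.mem_univ _))
  have h2 : ∀ c, 2 * (T.filter (fun w => w.1 = c)).card ≤ d c := by
    intro c
    have h3 : ((T.filter (fun w => w.1 = c)).map (nxt d).toEmbedding).card =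
      (T.filter (fun w => w.1 = c)).card := Finset.card_map _
    have h4 : Disjoint (T.filter (fun w => w.1 = c))
        ((T.filter (fun w => w.1 = c)).map (nxt d).toEmbedding) := by
      rw [Finset.disjoint_left]
      intro w hw hw2
      rw [Finset.mem_map] at hw2
      obtain ⟨v, hv, rfl⟩ := hw2
      exact hT v (Finset.mem_filter.1 hv).1 (Finset.mem_filter.1 hw).1
    have h5 : (T.filter (fun w => w.1 = c)) ∪
        ((T.filter (fun w => w.1 = c)).map (nxt d).toEmbedding) ⊆
        (univ : Finset (Fin (d c))).map (Function.Embedding.sigmaMk c) := by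
      intro w hw
      rw [Finset.mem_union] at hw
      have : w.1 = c := by
        rcases hw with hw | hw
        · exact (Finset.mem_filter.1 hw).2
        · rw [Finset.mem_map] at hw
          obtain ⟨v, hv, rfl⟩ := hw
          exact (Finset.mem_filter.1 hv).2
      obtain ⟨c', p⟩ := w
      simp only at this
      subst this
      simp
    have h6 := Finset.card_le_card h5
    rw [Finset.card_union_of_disjoint h4, h3, Finset.card_map, Finset.card_univ,
      Fintype.card_fin] at h6
    omega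
  rw [h1, Finset.mul_sum]
  unfold oo
  rw [Finset.card_filter, ← Finset.sum_add_distrib]
  refine Finset.sum_le_sum fun c _ => ?_
  have := h2 c
  split_ifs with h
  · obtain ⟨m, hm⟩ := h
    omega
  · omega

theorem image_labels [DecidableEq C] (g : (Σ c, Fin (d c)) → ℕ) (hg : Function.Injective g)
    (hr : ∀ w, 1 ≤ g w ∧ g w ≤ ∑ c, d c) : univ.image g = Finset.Icc 1 (∑ c, d c) := by
  apply Finset.eq_of_subset_of_card_le
  · intro x hx
    obtain ⟨w, -, rfl⟩ := Finset.mem_image.1 hx
    exact Finset.mem_Icc.2 (hr w)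
  · rw [Finset.card_image_of_injective _ hg, Finset.card_univ, Fintype.card_sigma]
    simp

theorem lower_one [Nonempty C] (hd : ∀ c, 2 ≤ d c) (g : (Σ c, Fin (d c)) → ℕ)
    (hg : Function.Injective g) (hr : ∀ w, 1 ≤ g w ∧ g w ≤ ∑ c, d c) :
    ∃ w, (∑ c, d c) + 1 + oo d ≤ g w + g (nxt d w) := by
  classical
  have hH : 1 ≤ HH d := by
    obtain ⟨c⟩ := ‹Nonempty C›
    unfold HH
    have := Finset.single_le_sum (f := fun c => d c / 2) (fun i _ => Nat.zero_le _)
      (Finset.mem_univ c)
    have := hd c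
    omega
  have hcard : (univ.filter (fun w => HH d + oo d ≤ g w)).card = HH d + 1 := by
    rw [← Finset.card_image_of_injective _ hg]
    have : (univ.filter (fun w => HH d + oo d ≤ g w)).image g =
        Finset.Icc (HH d + oo d) (∑ c, d c) := by
      ext x
      simp only [mem_image, mem_filter, mem_univ, true_and, mem_Icc]
      constructor
      · rintro ⟨w, h1, rfl⟩
        exact ⟨h1, (hr w).2⟩
      · rintro ⟨h1, h2⟩
        have : x ∈ univ.image g := by
          rw [image_labels d g hg hr, Finset.mem_Icc]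
          omega
        obtain ⟨w, -, rfl⟩ := Finset.mem_image.1 this
        exact ⟨w, h1, rfl⟩
    rw [this, Nat.card_Icc, total]
    omega
  by_contra hc
  push Not at hc
  have h1 := indep d (univ.filter (fun w => HH d + oo d ≤ g w)) (by
    intro w hw hw2
    simp only [mem_filter, mem_univ, true_and] at hw hw2
    have h2 := hc w
    have h3 : g (nxt d w) ≠ g w := fun h => nxt_ne d hd w (hg h)
    rw [total] at h2
    omega)
  rw [hcard, total] at h1
  omega

theorem sum_labels (g : (Σ c, Fin (d c)) → ℕ) (hg : Function.Injective g)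
    (hr : ∀ w, 1 ≤ g w ∧ g w ≤ ∑ c, d c) :
    2 * ∑ w, g w = (∑ c, d c) * ((∑ c, d c) + 1) := by
  classical
  have h1 : ∑ w, g w = ∑ x ∈ univ.image g, x := by
    rw [Finset.sum_image (fun a _ b _ h => hg h)]
  rw [h1, image_labels d g hg hr]
  generalize ∑ c, d c = n
  induction n with
  | zero => simp
  | succ n ih =>
    rw [Finset.sum_Icc_succ_top (by omega)]
    linarith

theorem lower_two (g : (Σ c, Fin (d c)) → ℕ)
    (hg : Function.Injective g) (hr : ∀ w, 1 ≤ g w ∧ g w ≤ ∑ c, d c) (h3 : ∃ c, 3 ≤ d c) :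
    ∃ w, (∑ c, d c) + 1 + 1 ≤ g w + g (nxt d w) := by
  classical
  by_contra hc
  push Not at hc
  have h1 : ∑ w, (g w + g (nxt d w)) = ∑ w : (Σ c, Fin (d c)), ((∑ c, d c) + 1) := by
    rw [Finset.sum_add_distrib, Equiv.sum_comp (nxt d) g, ← two_mul, sum_labels d g hg hr]
    simp
  have h2 : ∀ w ∈ (univ : Finset (Σ c, Fin (d c))), g w + g (nxt d w) ≤ (∑ c, d c) + 1 := by
    intro w _
    have := hc w
    omega
  have h4 := (Finset.sum_eq_sum_iff_of_le h2).1 h1
  obtain ⟨c, hc3⟩ := h3
  have h0 : 0 < d c := by omega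
  have h5 := h4 ⟨c, ⟨0, h0⟩⟩ (Finset.mem_univ _)
  have h6 := h4 (nxt d ⟨c, ⟨0, h0⟩⟩) (Finset.mem_univ _)
  exact nxt_nxt_ne d hc3 ⟨0, h0⟩ (hg (by omega))

theorem lower (hd : ∀ c, 2 ≤ d c) (g : (Σ c, Fin (d c)) → ℕ)
    (hg : Function.Injective g) (hr : ∀ w, 1 ≤ g w ∧ g w ≤ ∑ c, d c) (h3 : ∃ c, 3 ≤ d c) :
    ∃ w, (∑ c, d c) + 1 + max (oo d) 1 ≤ g w + g (nxt d w) := by
  rcases le_total (oo d) 1 with h | h
  · rw [max_eq_right h]
    exact lower_two d g hg hr h3
  · rw [max_eq_left h]
    obtain ⟨c, -⟩ := h3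
    have : Nonempty C := ⟨c⟩
    exact lower_one d hd g hg hr

theorem upper (hd : ∀ c, 2 ≤ d c) (g : (Σ c, Fin (d c)) → ℕ)
    (hg : Function.Injective g) (hr : ∀ w, 1 ≤ g w ∧ g w ≤ ∑ c, d c) (h3 : ∃ c, 3 ≤ d c) :
    ∃ w, g w + g (nxt d w) + max (oo d) 1 ≤ (∑ c, d c) + 1 := by
  obtain ⟨w, hw⟩ := lower d hd (fun w => (∑ c, d c) + 1 - g w)
    (by
      intro a b hab
      simp only at hab
      have := hr a
      have := hr b
      exact hg (by omega))
    (by
      intro w
      have := hr w
      omega) h3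
  refine ⟨w, ?_⟩
  have := hr w
  have := hr (nxt d w)
  omega

end Lower

end Pool.Agent.V11132.NSum
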