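import Pool.Agent.V11132.Mixed

set_option autoImplicit false

namespace Pool.Agent.V11132.Mixed

open SimpleGraph

variable {V : Type*}

/-- a vertex whose deletion leaves the graph connected sees some root twice -/
theorem exists_root {G : SimpleGraph V} (hconn : G.Connected) {t : V}
    (ht : (G.induce {w | w ≠ t}).Connected) (hdeg : ∃ p q, G.Adj t p ∧ G.Adj t q ∧ p ≠ q) :
    ∃ r p s, G.Adj t p ∧ G.Adj t s ∧ p ≠ s ∧ G.dist r p + 1 = G.dist r t ∧
      G.dist r s ≤ G.dist r t := by
  by_contra hcon
  push Not at hcon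
  obtain ⟨p, q, hp, hq, hpq⟩ := hdeg
  have step : ∀ x y : V, x ≠ t → y ≠ t → G.Adj x y → G.dist x p + 1 = G.dist x t →
      G.dist y p + 1 = G.dist y t := by
    intro x y hx hy hxy hxp
    obtain ⟨k, hk⟩ : ∃ k, G.dist y t = k + 1 := by
      have := hconn.pos_dist_of_ne hy
      exact ⟨G.dist y t - 1, by omega⟩
    obtain ⟨p', hp', hk'⟩ := exists_pred hconn hk
    by_cases e : p' = p
    · rw [← e]; omega
    · exfalso
      have h1 := hcon x p p' hp hp' (Ne.symm e) hxp
      have h2 := hcon y p' p hp' hp e (by omega)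
      have h3 : G.dist x p' ≤ G.dist y p' + 1 := by
        rw [SimpleGraph.dist_comm (u := x), SimpleGraph.dist_comm (u := y)]
        exact lip hxy.symm
      have h4 : G.dist y p ≤ G.dist x p + 1 := by
        rw [SimpleGraph.dist_comm (u := x), SimpleGraph.dist_comm (u := y)]
        exact lip hxy
      omega
  have hwalk : ∀ (x y : {w | w ≠ t}) (w : (G.induce {w | w ≠ t}).Walk x y),
      G.dist x.1 p + 1 = G.dist x.1 t → G.dist y.1 p + 1 = G.dist y.1 t := by
    intro x y w
    induction w with
    | nil => exact id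
    | @cons u v z h w ih =>
      intro hx
      exact ih (step u.1 v.1 u.2 v.2 h hx)
  have hpt : p ≠ t := hp.ne.symm
  have hqt : q ≠ t := hq.ne.symm
  obtain ⟨w⟩ := ht.preconnected ⟨p, hpt⟩ ⟨q, hqt⟩
  have h1 := hwalk _ _ w (by
    show G.dist p p + 1 = G.dist p t
    rw [SimpleGraph.dist_self, dist_eq_one_iff_adj.mpr hp.symm])
  have h2 : G.dist q p + 1 = G.dist q t := h1
  rw [dist_eq_one_iff_adj.mpr hq.symm] at h2
  have h3 : G.dist q p = 0 := by omega
  exact hpq (hconn.dist_eq_zero_iff.mp h3).symm

theorem nbr_of_connected {W : Type*} {H : SimpleGraph W} (hc : H.Connected) {x y : W}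
    (hxy : x ≠ y) : ∃ z, H.Adj x z := by
  obtain ⟨w⟩ := hc.preconnected x y
  cases w with
  | nil => exact absurd rfl hxy
  | cons h _ => exact ⟨_, h⟩

theorem deg_two [Fintype V] {G : SimpleGraph V} (h3 : 3 ≤ Fintype.card V)
    (h2 : ∀ v, (G.induce {w | w ≠ v}).Connected) (v a : V) : ∃ w, G.Adj v w ∧ w ≠ a := by
  classical
  have main : ∀ a : V, v ≠ a → ∃ w, G.Adj v w ∧ w ≠ a := by
    intro a hva
    obtain ⟨z, hz⟩ : ∃ z, z ∉ ({v, a} : Finset V) := by
      by_contra hcon
      push Not at hcon
      have h1 : (Finset.univ : Finset V) ⊆ {v, a} := fun x _ => hcon x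
      have h2 := Finset.card_le_card h1
      rw [Finset.card_univ] at h2
      have h3' : ({v, a} : Finset V).card ≤ 2 := Finset.card_le_two
      omega
    simp only [Finset.mem_insert, Finset.mem_singleton, not_or] at hz
    have hne : (⟨v, hva⟩ : {w | w ≠ a}) ≠ ⟨z, hz.2⟩ := by
      intro e
      exact hz.1 (congrArg Subtype.val e).symm
    obtain ⟨w, hw⟩ := nbr_of_connected (h2 a) hne
    exact ⟨w.1, hw, w.2⟩
  by_cases hva : v = a
  · subst hva
    obtain ⟨z, hz⟩ : ∃ z, z ≠ v := by
      have : Nontrivial V := Fintype.one_lt_card_iff_nontrivial.mp (by omega)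
      exact exists_ne v
    obtain ⟨w, hw, _⟩ := main z hz.symm
    exact ⟨w, hw, hw.ne.symm⟩
  · exact main a hva

theorem toFinset_card_le [DecidableEq V] (e : Sym2 V) : e.toFinset.card ≤ 2 := by
  induction e using Sym2.ind with
  | _ x y =>
    have h : (s(x, y)).toFinset ⊆ ({x, y} : Finset V) := by
      intro z hz
      rw [Sym2.mem_toFinset, Sym2.mem_iff] at hz
      rw [Finset.mem_insert, Finset.mem_singleton]
      exact hz
    exact (Finset.card_le_card h).trans Finset.card_le_two

theorem core [Fintype V] {G : SimpleGraph V} (hconn : G.Connected)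
    (deg2 : ∀ v a, ∃ w, G.Adj v w ∧ w ≠ a) {r t s p : V}
    (deg3 : ∀ a b, ∃ w, G.Adj t w ∧ w ≠ a ∧ w ≠ b) (htp : G.Adj t p) (hts : G.Adj t s)
    (hps : p ≠ s) (hp : G.dist r p + 1 = G.dist r t) (hs : G.dist r s ≤ G.dist r t) :
    ∃ S : Finset V, S.card ≤ 2 * (G.edgeSet.ncard + 1 - Fintype.card V) ∧ Good G S := by
  classical
  -- the parent function
  set P1 : V → Prop := fun x => ∃ y, G.Adj x y ∧ G.dist r y + 1 = G.dist r x ∧ ¬ Below G r t y
    with hP1
  set P2 : V → Prop := fun x => ∃ y, G.Adj x y ∧ G.dist r y + 1 = G.dist r x with hP2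
  set par : V → V := fun x => if x = t then p else
    if h : P1 x then h.choose else if h : P2 x then h.choose else x with hpar
  have part : par t = p := by simp [hpar]
  have htr : t ≠ r := by
    rintro rfl
    rw [SimpleGraph.dist_self] at hp
    omega
  have par1 : ∀ x, x ≠ t → P1 x → G.Adj x (par x) ∧ G.dist r (par x) + 1 = G.dist r x ∧
      ¬ Below G r t (par x) := by
    intro x hx h
    have : par x = h.choose := by
      simp only [hpar]
      rw [if_neg hx, dif_pos h]
    rw [this]
    exact h.choose_spec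
  have par2 : ∀ x, x ≠ r → G.Adj x (par x) ∧ G.dist r (par x) + 1 = G.dist r x := by
    intro x hx
    by_cases hxt : x = t
    · subst hxt
      rw [part]
      exact ⟨htp, hp⟩
    · by_cases h1 : P1 x
      · have := par1 x hxt h1
        exact ⟨this.1, this.2.1⟩
      · have h2 : P2 x := by
          have := hconn.pos_dist_of_ne (Ne.symm hx)
          obtain ⟨k, hk⟩ : ∃ k, G.dist r x = k + 1 := ⟨G.dist r x - 1, by omega⟩
          obtain ⟨w, hw, hwk⟩ := exists_pred hconn hk
          exact ⟨w, hw, by omega⟩
        have : par x = h2.choose := by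
          simp only [hpar]
          rw [if_neg hxt, dif_neg h1, dif_pos h2]
        rw [this]
        exact h2.choose_spec
  -- cotree edges
  set Tr : Finset (Sym2 V) := (Finset.univ.erase r).image (fun x => s(x, par x)) with hTr
  set C : Finset (Sym2 V) := G.edgeFinset \ Tr with hC
  have hTsub : Tr ⊆ G.edgeFinset := by
    intro e he
    simp only [hTr, Finset.mem_image, Finset.mem_erase, Finset.mem_univ, and_true] at he
    obtain ⟨x, hx, rfl⟩ := he
    rw [mem_edgeFinset, mem_edgeSet]
    exact (par2 x hx).1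
  have hTcard : Tr.card = Fintype.card V - 1 := by
    rw [hTr, Finset.card_image_of_injOn, Finset.card_erase_of_mem (Finset.mem_univ r),
      Finset.card_univ]
    intro x hx y hy hxy
    simp only [Finset.coe_erase, Finset.coe_univ, Set.mem_sdiff, Set.mem_univ, true_and,
      Set.mem_singleton_iff] at hx hy
    simp only [Sym2.eq_iff] at hxy
    rcases hxy with ⟨h, _⟩ | ⟨h1, h2⟩
    · exact h
    · exfalso
      have e1 := (par2 x hx).2
      have e2 := (par2 y hy).2
      rw [h2] at e1
      rw [← h1] at e2
      omega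
  have hCcard : C.card = G.edgeSet.ncard + 1 - Fintype.card V := by
    rw [hC, Finset.card_sdiff_of_subset hTsub, hTcard]
    have h1 : G.edgeFinset.card = G.edgeSet.ncard := by
      rw [← Set.ncard_coe_finset, coe_edgeFinset]
    have h2 : 1 ≤ Fintype.card V := Fintype.card_pos_iff.mpr ⟨r⟩
    have h3 : Tr.card ≤ G.edgeFinset.card := Finset.card_le_card hTsub
    rw [hTcard] at h3
    omega
  have hmemC : ∀ a b, G.Adj a b → (a ≠ r → par a ≠ b) → (b ≠ r → par b ≠ a) → s(a, b) ∈ C := by
    intro a b hab ha hb
    rw [hC, Finset.mem_sdiff, mem_edgeFinset, mem_edgeSet]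
    refine ⟨hab, ?_⟩
    intro h
    simp only [hTr, Finset.mem_image, Finset.mem_erase, Finset.mem_univ, and_true] at h
    obtain ⟨x, hx, hxe⟩ := h
    rw [Sym2.eq_iff] at hxe
    rcases hxe with ⟨h1, h2⟩ | ⟨h1, h2⟩
    · subst h1; exact ha hx h2
    · subst h1; exact hb hx h2
  have hstC : s(s, t) ∈ C := by
    apply hmemC s t hts.symm
    · intro hsr e
      have := (par2 s hsr).2
      rw [e] at this
      omega
    · intro _ e
      rw [part] at e
      exact hps e
  set S : Finset V := insert r (insert s ((C.erase s(s, t)).biUnion (fun e => e.toFinset)))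
    with hS
  refine ⟨S, ?_, ?_⟩
  · have h1 : ((C.erase s(s, t)).biUnion (fun e => e.toFinset)).card ≤ (C.erase s(s, t)).card * 2 := by
      apply Finset.card_biUnion_le_card_mul
      intro e _
      exact toFinset_card_le e
    have h2 : S.card ≤ ((C.erase s(s, t)).biUnion (fun e => e.toFinset)).card + 1 + 1 := by
      rw [hS]
      refine (Finset.card_insert_le _ _).trans ?_
      exact Nat.add_le_add_right (Finset.card_insert_le _ _) 1
    rw [Finset.card_erase_of_mem hstC] at h1
    have h3 : 1 ≤ C.card := Finset.card_pos.mpr ⟨_, hstC⟩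
    rw [← hCcard]
    omega
  · have H : Setup G r t s par (S : Set V) := by
      refine ⟨hconn, fun x hx => (par2 x hx).1, fun x hx => (par2 x hx).2, ?_, deg2, deg3, hts, hs,
        by simp [hS], by simp [hS], ?_⟩
      · intro x _ hxt hy
        exact (par1 x hxt hy).2.2
      · intro a b hab ha hb
        have hmem := hmemC a b hab ha hb
        by_cases he : s(a, b) = s(s, t)
        · rw [Sym2.eq_iff] at he
          rcases he with ⟨h1, _⟩ | h
          · left; rw [h1]; simp [hS]
          · exact Or.inr h
        · left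
          rw [Finset.mem_coe, hS, Finset.mem_insert, Finset.mem_insert, Finset.mem_biUnion]
          right; right
          exact ⟨s(a, b), Finset.mem_erase.mpr ⟨he, hmem⟩, by simp⟩
    refine ⟨fun x y hxy => ?_, fun x e he => ?_, fun e f he hf hef => ?_⟩
    · obtain ⟨σ, hσ, h⟩ := H.vv hxy
      exact ⟨σ, hσ, h⟩
    · obtain ⟨σ, hσ, h⟩ := H.ve x e he
      exact ⟨σ, hσ, h⟩
    · obtain ⟨σ, hσ, h⟩ := H.ee e f he hf hef
      exact ⟨σ, hσ, h⟩

/-- a connected graph with all degrees two is a cycle -/
theorem iso_cycle [Fintype V] {G : SimpleGraph V} (hconn : G.Connected)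
    (hd : ∀ v, (G.neighborSet v).ncard = 2) :
    ∃ n, 3 ≤ n ∧ Nonempty (G ≃g cycleGraph n) := by
  classical
  have hcyc : G.IsCycles := fun v _ => hd v
  obtain ⟨v⟩ := hconn.nonempty
  have hne : (G.neighborSet v).Nonempty := by
    rw [Set.nonempty_iff_ne_empty]
    intro h
    have := hd v
    rw [h] at this
    simp at this
  obtain ⟨p, hp, hpv⟩ := hcyc.exists_cycle_toSubgraph_verts_eq_connectedComponentSupp
    (c := G.connectedComponentMk v) (ConnectedComponent.connectedComponentMk_mem) hne
  have hall : ∀ x, x ∈ p.support := by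
    intro x
    rw [← Walk.mem_verts_toSubgraph, hpv, ConnectedComponent.mem_supp_iff,
      ConnectedComponent.eq]
    exact hconn.preconnected x v
  obtain ⟨m, hm⟩ : ∃ m, p.length = m + 3 := ⟨p.length - 3, by
    have := hp.three_le_length
    omega⟩
  set f : Fin (m + 3) → V := fun i => p.getVert i.1 with hf
  have hinj : Function.Injective f := by
    intro i j hij
    have := hp.getVert_injOn' (by simp only [Set.mem_ofPred_eq]; have := i.2; omega)
      (by simp only [Set.mem_ofPred_eq]; have := j.2; omega) hij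
    exact Fin.ext this
  have hsurj : Function.Surjective f := by
    intro x
    obtain ⟨i, hi, hil⟩ := Walk.mem_support_iff_exists_getVert.mp (hall x)
    rcases Nat.lt_or_ge i (m + 3) with h | h
    · exact ⟨⟨i, h⟩, hi⟩
    · refine ⟨0, ?_⟩
      have : i = p.length := by omega
      rw [← hi, this, Walk.getVert_length]
      simp [hf]
  have hsucc : ∀ i : Fin (m + 3), G.Adj (f i) (f (i + 1)) := by
    intro i
    have h1 : G.Adj (p.getVert i.1) (p.getVert (i.1 + 1)) := p.adj_getVert_succ (by
      have := i.2; omega)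
    rcases Nat.lt_or_ge (i.1 + 1) (m + 3) with h | h
    · have h2 : (i + 1).1 = i.1 + 1 := by
        rw [Fin.val_add_one_of_lt]
        rw [Fin.lt_def, Fin.val_last]
        omega
      simp only [hf, h2]
      exact h1
    · have h2 : i = Fin.last (m + 2) := by
        apply Fin.ext
        rw [Fin.val_last]
        have := i.2
        omega
      subst h2
      have h3 : (Fin.last (m + 2) + 1 : Fin (m + 3)) = 0 := Fin.last_add_one _
      rw [h3]
      simp only [hf]
      have h4 : p.getVert ((Fin.last (m + 2) : Fin (m + 3)).1 + 1) = p.getVert 0 := by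
        rw [Fin.val_last, show m + 2 + 1 = p.length by omega, Walk.getVert_length,
          Walk.getVert_zero]
      rw [h4] at h1
      exact h1
  have hadj : ∀ i j, (cycleGraph (m + 3)).Adj i j ↔ G.Adj (f i) (f j) := by
    intro i j
    have hc : (cycleGraph (m + 3)).Adj i j ↔ i - j = 1 ∨ j - i = 1 :=
      cycleGraph_adj (n := m + 1)
    rw [hc]
    constructor
    · rintro (h | h)
      · have : i = j + 1 := by rw [← h]; abel
        rw [this]
        exact (hsucc j).symm
      · have : j = i + 1 := by rw [← h]; abel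
        rw [this]
        exact hsucc i
    · intro h
      have hne2 : f (i + 1) ≠ f (i - 1) := by
        intro e
        have h1 := hinj e
        have h2 : (1 : Fin (m + 3)) + 1 = 0 := by
          have h3 : i + 1 - (i - 1) = 0 := by rw [h1]; abel
          have h4 : i + 1 - (i - 1) = 1 + 1 := by abel
          rw [← h4, h3]
        have h5 := congrArg Fin.val h2
        rw [Fin.val_add] at h5
        simp only [Fin.val_one, Fin.val_zero] at h5
        rw [Nat.mod_eq_of_lt (by omega)] at h5
        omega
      have hpred : G.Adj (f i) (f (i - 1)) := by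
        have := hsucc (i - 1)
        rw [sub_add_cancel] at this
        exact this.symm
      have hsub : ({f (i + 1), f (i - 1)} : Set V) ⊆ G.neighborSet (f i) := by
        intro x hx
        rcases hx with rfl | hx
        · exact hsucc i
        · rw [Set.mem_singleton_iff] at hx
          rw [hx]; exact hpred
      have hcard : ({f (i + 1), f (i - 1)} : Set V).ncard = 2 := Set.ncard_pair hne2
      have heq : ({f (i + 1), f (i - 1)} : Set V) = G.neighborSet (f i) :=
        Set.eq_of_subset_of_ncard_le hsub (by rw [hd, hcard]) (Set.toFinite _)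
      have hj : f j ∈ ({f (i + 1), f (i - 1)} : Set V) := by rw [heq]; exact h
      rcases hj with hj | hj
      · right
        rw [hinj hj]; abel
      · left
        rw [Set.mem_singleton_iff] at hj
        rw [hinj hj]; abel
  refine ⟨m + 3, by omega, ⟨?_⟩⟩
  exact (⟨Equiv.ofBijective f ⟨hinj, hsurj⟩, fun {i j} => (hadj i j).symm⟩ :
    cycleGraph (m + 3) ≃g G).symm

theorem main [Fintype V] (G : SimpleGraph V) (h3 : 3 ≤ Fintype.card V) (hconn : G.Connected)
    (h2 : ∀ v, (G.induce {w | w ≠ v}).Connected)
    (hcyc : ∀ n, 3 ≤ n → IsEmpty (G ≃g cycleGraph n)) :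
    ∃ S : Finset V, S.card ≤ 2 * (G.edgeSet.ncard + 1 - Fintype.card V) ∧ Good G S := by
  classical
  have deg2 := deg_two h3 h2
  have hge : ∀ v, 2 ≤ (G.neighborSet v).ncard := by
    intro v
    obtain ⟨a, ha, _⟩ := deg2 v v
    obtain ⟨b, hb, hba⟩ := deg2 v a
    have hsub : ({a, b} : Set V) ⊆ G.neighborSet v := by
      intro x hx
      rcases hx with rfl | hx
      · exact ha
      · rw [Set.mem_singleton_iff] at hx
        rw [hx]; exact hb
    have := Set.ncard_le_ncard hsub (Set.toFinite _)
    rw [Set.ncard_pair hba.symm] at this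
    exact this
  obtain ⟨t, ht⟩ : ∃ t, 3 ≤ (G.neighborSet t).ncard := by
    by_contra hcon
    push Not at hcon
    obtain ⟨n, hn, ⟨φ⟩⟩ := iso_cycle hconn (fun v => by
      have := hge v
      have := hcon v
      omega)
    exact (hcyc n hn).false φ
  have deg3 : ∀ a b, ∃ w, G.Adj t w ∧ w ≠ a ∧ w ≠ b := by
    intro a b
    by_contra hcon
    push Not at hcon
    have hsub : G.neighborSet t ⊆ ({a, b} : Set V) := by
      intro x hx
      by_cases hxa : x = a
      · left; exact hxa
      · right; exact hcon x hx hxa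
    have h1 := Set.ncard_le_ncard hsub (Set.toFinite _)
    have h2' : ({a, b} : Set V).ncard ≤ 2 := by
      have := Set.ncard_insert_le a ({b} : Set V)
      rw [Set.ncard_singleton] at this
      omega
    omega
  obtain ⟨q, hq, _⟩ := deg2 t t
  obtain ⟨q', hq', hqq'⟩ := deg2 t q
  obtain ⟨r, p, s, htp, hts, hps, hp, hs⟩ := exists_root hconn (h2 t) ⟨q, q', hq, hq', hqq'.symm⟩
  exact core hconn deg2 deg3 htp hts hps hp hs

end Pool.Agent.V11132.Mixed
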