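import Mathlib

set_option autoImplicit false

/-!
Metric lemmas on bridged graphs and the finite approximation theorem.
-/

namespace Pool.Agent.V11132.Bridged

open SimpleGraph

variable {V : Type*}

/-- closed 4-walks have a chord (or are degenerate) -/
def NoC4 (G : SimpleGraph V) : Prop :=
  ∀ a b c d, G.Adj a b → G.Adj b c → G.Adj c d → G.Adj d a →
    a = c ∨ b = d ∨ G.Adj a c ∨ G.Adj b d

/-- closed 5-walks have a chord (or are degenerate) -/
def NoC5 (G : SimpleGraph V) : Prop :=
  ∀ a b c d e, G.Adj a b → G.Adj b c → G.Adj c d → G.Adj d e → G.Adj e a →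
    (a = c ∨ b = d ∨ c = e ∨ d = a ∨ e = b) ∨
    (G.Adj a c ∨ G.Adj b d ∨ G.Adj c e ∨ G.Adj d a ∨ G.Adj e b)

/-- isometric cycles of length `L`, as `L`-periodic sequences -/
def IsoCyc (G : SimpleGraph V) (L : ℕ) (c : ℕ → V) : Prop :=
  (∀ i, c (i + L) = c i) ∧ (∀ i, G.Adj (c i) (c (i + 1))) ∧
    ∀ i, G.dist (c i) (c (i + L / 2)) = L / 2

def LowClique (G : SimpleGraph V) (k : ℕ) : Prop :=
  ∀ u x a b, G.dist u x = k → G.Adj x a → G.Adj x b → G.dist u a + 1 = k → G.dist u b + 1 = k →
    a = b ∨ G.Adj a b

def TriCond (G : SimpleGraph V) (k : ℕ) : Prop :=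
  ∀ u x z, G.Adj x z → G.dist u x = k → G.dist u z = k →
    ∃ w, G.Adj w x ∧ G.Adj w z ∧ G.dist u w + 1 = k

section basics

variable {G : SimpleGraph V}

theorem lip {u a b : V} (h : G.Adj a b) : G.dist u b ≤ G.dist u a + 1 := by
  have := h.diff_dist_adj (u := u)
  omega

theorem lip' {u a b : V} (h : G.Adj a b) : G.dist b u ≤ G.dist a u + 1 := by
  rw [dist_comm (u := b), dist_comm (u := a)]
  exact lip h

theorem eq_of_dist_zero {u x a : V} (hx : G.dist u x = 1) (h : G.Adj x a) (ha : G.dist u a = 0) :
    a = u := by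
  have h1 : G.Reachable u x := Reachable.of_dist_ne_zero (by omega)
  have h2 : G.Reachable u a := h1.trans h.reachable
  exact (h2.dist_eq_zero_iff.mp ha).symm

/-- the distance function along a sequence of consecutive adjacent vertices -/
theorem path_lip {c : ℕ → V} (hc : ∀ i, G.Adj (c i) (c (i + 1))) (u : V) (i j : ℕ) :
    G.dist u (c (i + j)) ≤ G.dist u (c i) + j := by
  induction j with
  | zero => simp
  | succ j ih =>
    have := lip (u := u) (hc (i + j))
    rw [show i + (j + 1) = i + j + 1 from rfl]
    omega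

theorem path_lip_back {c : ℕ → V} (hc : ∀ i, G.Adj (c i) (c (i + 1))) (u : V) (i j : ℕ) :
    G.dist u (c i) ≤ G.dist u (c (i + j)) + j := by
  induction j with
  | zero => simp
  | succ j ih =>
    have := lip (u := u) (hc (i + j)).symm
    rw [show i + (j + 1) = i + j + 1 from rfl]
    omega

theorem path_le {c : ℕ → V} (hc : ∀ i, G.Adj (c i) (c (i + 1))) (i j : ℕ) :
    G.dist (c i) (c (i + j)) ≤ j := by
  have := path_lip hc (c i) i j
  simpa using this

/-- geodesics -/
theorem exists_geod {u x : V} {k : ℕ} (hk : G.dist u x = k) (hr : G.Reachable u x) :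
    ∃ p : ℕ → V, p 0 = u ∧ p k = x ∧ (∀ i, i < k → G.Adj (p i) (p (i + 1))) ∧
      ∀ i, i ≤ k → G.dist u (p i) = i := by
  obtain ⟨w, hw⟩ := hr.exists_walk_length_eq_dist
  have hwk : w.length = k := by omega
  have hadj : ∀ i, i < k → G.Adj (w.getVert i) (w.getVert (i + 1)) := fun i hi =>
    w.adj_getVert_succ (by omega)
  refine ⟨fun i => w.getVert i, by simp, ?_, hadj, ?_⟩
  · show w.getVert k = x
    rw [← hwk]; simp
  · intro i hi
    have h1 : ∀ i, i ≤ k → G.dist u (w.getVert i) ≤ i := by
      intro i
      induction i with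
      | zero => simp
      | succ i ih =>
        intro hi
        have := lip (u := u) (hadj i (by omega))
        have := ih (by omega)
        omega
    have h2 : ∀ j, j ≤ k → G.dist u x ≤ G.dist u (w.getVert (k - j)) + j := by
      intro j
      induction j with
      | zero =>
        intro _
        have : w.getVert (k - 0) = x := by rw [Nat.sub_zero, ← hwk]; simp
        rw [this]; simp
      | succ j ih =>
        intro hj
        have h3 := ih (by omega)
        have h4 := lip (u := u) (hadj (k - (j + 1)) (by omega))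
        have h5 : k - (j + 1) + 1 = k - j := by omega
        rw [h5] at h4
        omega
    have h3 := h1 i hi
    have h4 := h2 (k - i) (by omega)
    have h5 : k - (k - i) = i := by omega
    rw [h5] at h4
    show G.dist u (w.getVert i) = i
    omega

theorem exists_pred {u x : V} {k : ℕ} (hk : G.dist u x = k + 1) :
    ∃ w, G.Adj x w ∧ G.dist u w = k := by
  obtain ⟨p, h0, h1, h2, h3⟩ := exists_geod hk (Reachable.of_dist_ne_zero (by omega))
  refine ⟨p k, ?_, h3 k (by omega)⟩
  have := h2 k (by omega)
  rw [h1] at this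
  exact this.symm

/-- geodesic with prescribed last step -/
theorem exists_geod_through {u x a : V} {k : ℕ} (hk : G.dist u x = k + 1) (ha : G.Adj x a)
    (hka : G.dist u a = k) :
    ∃ p : ℕ → V, p 0 = u ∧ p k = a ∧ p (k + 1) = x ∧ (∀ i, i < k + 1 → G.Adj (p i) (p (i + 1))) ∧
      ∀ i, i ≤ k + 1 → G.dist u (p i) = i := by
  have hr : G.Reachable u a :=
    (Reachable.of_dist_ne_zero (by omega : G.dist u x ≠ 0)).trans ha.reachable
  obtain ⟨p, h0, h1, h2, h3⟩ := exists_geod hka hr
  refine ⟨fun i => if i ≤ k then p i else x, by simp [h0], by simp [h1], by simp, ?_, ?_⟩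
  · intro i hi
    by_cases hik : i + 1 ≤ k
    · have : i ≤ k := by omega
      simp only [this, hik, if_true]
      exact h2 i (by omega)
    · have h4 : i = k := by omega
      subst h4
      simp [h1, ha.symm]
  · intro i hi
    by_cases hik : i ≤ k
    · simp only [hik, if_true]
      exact h3 i hik
    · have h4 : i = k + 1 := by omega
      subst h4
      simp [hk]

end basics

section AB

variable {G : SimpleGraph V}

/-- Lemma Y: transitivity of adjacency in the set of lower neighbours. -/
theorem lemY {k : ℕ} (h4 : NoC4 G) (h5 : NoC5 G) (hA : LowClique G k) (hB : 1 ≤ k → TriCond G k)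
    {u t a w b : V} (ht : G.dist u t = k + 1) (ha : G.Adj t a) (hb : G.Adj t b)
    (hda : G.dist u a = k) (hdw : G.dist u w = k) (hdb : G.dist u b = k)
    (haw : G.Adj a w) (hwb : G.Adj w b) : a = b ∨ G.Adj a b := by
  rcases Nat.eq_zero_or_pos k with rfl | hk
  · left
    rw [eq_of_dist_zero ht ha hda, eq_of_dist_zero ht hb hdb]
  obtain ⟨c, hca, hcw, hdc⟩ := hB hk u a w haw hda hdw
  obtain ⟨c', hcw', hcb', hdc'⟩ := hB hk u w b hwb hdw hdb
  have htc : ∀ z, G.dist u z + 1 = k → t ≠ z ∧ ¬ G.Adj t z := by
    intro z hz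
    refine ⟨?_, ?_⟩
    · rintro rfl; omega
    · intro h
      have := lip (u := u) h.symm
      omega
  by_contra hne
  push Not at hne
  obtain ⟨hne1, hne2⟩ := hne
  obtain ⟨q1, q2⟩ := htc c hdc
  obtain ⟨q3, q4⟩ := htc c' hdc'
  rcases hA u w c c' hdw hcw.symm hcw'.symm hdc hdc' with rfl | hcc
  · rcases h4 t a c b ha hca.symm hcb' hb.symm with h | h | h | h
    · exact q1 h
    · exact hne1 h
    · exact q2 h
    · exact hne2 h
  · have hca' : ¬ G.Adj c' a := by
      intro h
      rcases h4 t a c' b ha h.symm hcb' hb.symm with h | h | h | h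
      · exact q3 h
      · exact hne1 h
      · exact q4 h
      · exact hne2 h
    have hcb : ¬ G.Adj c b := by
      intro h
      rcases h4 t a c b ha hca.symm h hb.symm with h | h | h | h
      · exact q1 h
      · exact hne1 h
      · exact q2 h
      · exact hne2 h
    rcases h5 t a c c' b ha hca.symm hcc hcb' hb.symm with
      (h | h | h | h | h) | (h | h | h | h | h)
    · exact q1 h
    · rw [← h] at hdc'; omega
    · rw [h] at hdc; omega
    · exact q3 h.symm
    · exact hne1 h.symm
    · exact q2 h
    · exact hca' h.symm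
    · exact hcb h
    · exact q4 h.symm
    · exact hne2 h.symm

/-- Lemma X. -/
theorem lemX {k : ℕ} (h4 : NoC4 G) (h5 : NoC5 G) (hA : LowClique G k) (hB : 1 ≤ k → TriCond G k)
    {u t a b v : V} (ht : G.dist u t = k + 1) (ha : G.Adj t a) (hb : G.Adj t b)
    (hda : G.dist u a = k) (hdb : G.dist u b = k) (huv : G.Adj u v)
    (hva : G.dist v a + 1 ≤ k) (hvb : G.dist v b ≤ k) : a = b ∨ G.Adj a b := by
  have h1 : G.dist v t = k := by
    have := lip (u := v) ha.symm
    have := lip' (u := t) huv.symm
    omega
  have h2 : G.dist v a + 1 = k := by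
    have := lip (u := v) ha.symm
    omega
  have h3 : G.dist u b ≤ G.dist v b + 1 := lip' huv.symm
  rcases Nat.lt_or_ge (G.dist v b) k with hlt | hge
  · exact hA v t a b h1 ha hb h2 (by omega)
  · have h4' : G.dist v b = k := by omega
    obtain ⟨w, hwt, hwb, hdw⟩ := hB (by omega) v t b hb h1 h4'
    have huw : G.dist u w = k := by
      have e1 : G.dist u w ≤ G.dist v w + 1 := lip' huv.symm
      have e2 := lip (u := u) hwt
      omega
    rcases hA v t a w h1 ha hwt.symm h2 hdw with rfl | haw
    · right; exact hwb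
    · exact lemY h4 h5 hA hB ht ha hb hda huw hdb haw hwb

end AB

section glue

theorem per_mul {c : ℕ → V} {L : ℕ} (hp : ∀ i, c (i + L) = c i) (i m : ℕ) :
    c (i + L * m) = c i := by
  induction m with
  | zero => simp
  | succ m ih =>
    rw [Nat.mul_succ, ← add_assoc, hp, ih]

theorem per_extend {P : V → V → Prop} {c : ℕ → V} {L : ℕ} (hL : 0 < L)
    (hp : ∀ i, c (i + L) = c i) (s : ℕ)
    (h : ∀ i, i < L → P (c i) (c (i + s))) : ∀ i, P (c i) (c (i + s)) := by
  intro i
  have h1 := h (i % L) (Nat.mod_lt _ hL)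
  have h2 : c i = c (i % L) := by
    conv_lhs => rw [← Nat.mod_add_div i L]
    exact per_mul hp _ _
  have h3 : c (i + s) = c (i % L + s) := by
    have : i + s = (i % L + s) + L * (i / L) := by
      have := Nat.mod_add_div i L
      omega
    rw [this]
    exact per_mul hp _ _
  rw [h2, h3]
  exact h1

/-- glue two sequences to a periodic one -/
def glue (L K : ℕ) (p q : ℕ → V) (n : ℕ) : V :=
  if n % L ≤ K then p (n % L) else q (L - n % L)

theorem glue_per (L K : ℕ) (p q : ℕ → V) (n : ℕ) : glue L K p q (n + L) = glue L K p q n := by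
  simp [glue]

theorem glue_p {L K : ℕ} {p q : ℕ → V} {i : ℕ} (hi : i ≤ K) (hK : K < L) :
    glue L K p q i = p i := by
  have : i % L = i := Nat.mod_eq_of_lt (by omega)
  simp [glue, this, hi]

theorem glue_q {L K : ℕ} {p q : ℕ → V} {i : ℕ} (h0 : p 0 = q 0) (hi : K < i) (hK : i ≤ L) :
    glue L K p q i = q (L - i) := by
  rcases Nat.lt_or_ge i L with h | h
  · have : i % L = i := Nat.mod_eq_of_lt h
    have h2 : ¬ i ≤ K := by omega
    simp [glue, this, h2]
  · have : i = L := by omega
    subst this
    simp [glue, h0]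

end glue

section AB2

variable {G : SimpleGraph V}

theorem glue_adj {L K : ℕ} {p q : ℕ → V} (hKL : K < L) (h0 : p 0 = q 0)
    (hp : ∀ i, i < K → G.Adj (p i) (p (i + 1)))
    (hq : ∀ i, i < L - (K + 1) → G.Adj (q i) (q (i + 1)))
    (hmid : G.Adj (p K) (q (L - (K + 1)))) :
    ∀ i, G.Adj (glue L K p q i) (glue L K p q (i + 1)) := by
  apply per_extend (P := G.Adj) (by omega) (glue_per L K p q)
  intro i hi
  rcases Nat.lt_trichotomy i K with h | h | h
  · rw [glue_p (by omega) hKL, glue_p (by omega) hKL]
    exact hp i h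
  · subst h
    rw [glue_p le_rfl hKL, glue_q h0 (by omega) (by omega)]
    exact hmid
  · rw [glue_q h0 h (by omega), glue_q h0 (by omega) (by omega)]
    have h1 : L - i = L - (i + 1) + 1 := by omega
    rw [h1]
    exact (hq _ (by omega)).symm

theorem stepA {k : ℕ} (h4 : NoC4 G) (h5 : NoC5 G) (hA : LowClique G k) (hB : 1 ≤ k → TriCond G k)
    (hno : 2 ≤ k → ¬ ∃ c, IsoCyc G (2 * (k + 1)) c) : LowClique G (k + 1) := by
  intro u x a b hx ha hb hda hdb
  have hda : G.dist u a = k := by omega
  have hdb : G.dist u b = k := by omega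
  rcases Nat.lt_or_ge k 2 with hk | hk
  · interval_cases k
    · left
      rw [eq_of_dist_zero hx ha hda, eq_of_dist_zero hx hb hdb]
    · have e1 : G.Adj u a := dist_eq_one_iff_adj.mp hda
      have e2 : G.Adj u b := dist_eq_one_iff_adj.mp hdb
      rcases h4 u a x b e1 ha.symm hb e2.symm with h | h | h | h
      · subst h; simp at hx
      · exact Or.inl h
      · have := dist_eq_one_iff_adj.mpr h; omega
      · exact Or.inr h
  · by_contra hne
    obtain ⟨p, hp0, hpk, hpK, hpadj, hpd⟩ := exists_geod_through hx ha hda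
    obtain ⟨q, hq0, hqk, hqK, hqadj, hqd⟩ := exists_geod_through hx hb hdb
    have h0 : p 0 = q 0 := by rw [hp0, hq0]
    apply hno hk
    set L := 2 * (k + 1) with hL
    set c := glue L (k + 1) p q with hc
    have hper : ∀ i, c (i + L) = c i := glue_per L (k + 1) p q
    have hadj : ∀ i, G.Adj (c i) (c (i + 1)) := by
      apply glue_adj (by omega) h0 hpadj
      · intro i hi
        exact hqadj i (by omega)
      · have : L - (k + 1 + 1) = k := by omega
        rw [this, hpK, hqk]
        exact hb
    have hcp : ∀ i, i ≤ k + 1 → c i = p i := fun i hi => glue_p hi (by omega)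
    have hcq : ∀ i, k + 1 ≤ i → i ≤ L → c i = q (L - i) := by
      intro i h1 h2
      rcases Nat.lt_or_ge (k + 1) i with h | h
      · exact glue_q h0 h h2
      · have : i = k + 1 := by omega
        subst this
        rw [hcp _ le_rfl, hpK]
        have : L - (k + 1) = k + 1 := by omega
        rw [this, hqK]
    have hE : ∀ i, i ≤ k + 1 → G.dist (c i) (c (i + (k + 1))) = k + 1 := by
      intro i
      induction i with
      | zero =>
        intro _
        rw [hcp 0 (by omega), Nat.zero_add, hcp (k + 1) le_rfl, hp0, hpK]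
        exact hx
      | succ i ih =>
        intro hi
        have hEi := ih (by omega)
        by_contra hcon
        have hle : G.dist (c (i + 1)) (c (i + 1 + (k + 1))) ≤ k + 1 := path_le hadj _ _
        have hlt : G.dist (c (i + 1)) (c (i + 1 + (k + 1))) ≤ k := by omega
        have e1 : G.Adj (c (i + (k + 1))) (c (i + k)) := (hadj (i + k)).symm
        have e2 : G.Adj (c (i + (k + 1))) (c (i + 1 + (k + 1))) := by
          have := hadj (i + (k + 1))
          rwa [show i + (k + 1) + 1 = i + 1 + (k + 1) by omega] at this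
        have e3 : G.dist (c i) (c (i + k)) = k := by
          have h1 : G.dist (c i) (c (i + k)) ≤ k := path_le hadj _ _
          have h2 := lip (u := c i) e1.symm
          omega
        have e4 : G.dist (c i) (c (i + 1 + (k + 1))) = k := by
          have h1 : G.dist (c (i + 1 + (k + 1))) (c (i + 1 + (k + 1) + k)) ≤ k := path_le hadj _ _
          rw [show i + 1 + (k + 1) + k = i + L by omega, hper, dist_comm] at h1
          have h2 := lip (u := c i) e2.symm
          omega
        have e5 : G.dist (c (i + 1)) (c (i + k)) + 1 ≤ k := by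
          have h1 : G.dist (c (i + 1)) (c (i + 1 + (k - 1))) ≤ k - 1 := path_le hadj _ _
          rw [show i + 1 + (k - 1) = i + k by omega] at h1
          omega
        have hX := lemX h4 h5 hA hB hEi e1 e2 e3 e4 (hadj i) e5 hlt
        rcases Nat.eq_zero_or_pos i with rfl | hi0
        · apply hne
          rw [Nat.zero_add, hcp k (by omega), hpk, hcq _ (by omega) (by omega)] at hX
          rw [show L - (0 + 1 + (k + 1)) = k by omega, hqk] at hX
          exact hX
        · rw [hcq (i + k) (by omega) (by omega), hcq _ (by omega) (by omega)] at hX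
          have d1 : G.dist u (q (L - (i + k))) = L - (i + k) := hqd _ (by omega)
          have d2 : G.dist u (q (L - (i + 1 + (k + 1)))) = L - (i + 1 + (k + 1)) :=
            hqd _ (by omega)
          rcases hX with h | h
          · rw [h] at d1
            omega
          · have := lip (u := u) h.symm
            omega
    refine ⟨c, hper, hadj, ?_⟩
    have hL2 : L / 2 = k + 1 := by omega
    rw [hL2]
    apply per_extend (P := fun y z => G.dist y z = k + 1) (L := L) (by omega) hper
    intro i hi
    rcases Nat.lt_or_ge i (k + 1) with h | h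
    · exact hE i h.le
    · have h1 := hE (i - (k + 1)) (by omega)
      rw [dist_comm, show i - (k + 1) + (k + 1) = i by omega] at h1
      rw [show i + (k + 1) = i - (k + 1) + L by omega, hper]
      exact h1

theorem stepB {k : ℕ} (hA : LowClique G (k + 1)) (hB : 1 ≤ k → TriCond G k)
    (hno : 1 ≤ k → ¬ ∃ c, IsoCyc G (2 * (k + 1) + 1) c) : TriCond G (k + 1) := by
  intro u x z hxz hx hz
  rcases Nat.eq_zero_or_pos k with rfl | hk
  · exact ⟨u, dist_eq_one_iff_adj.mp hx, dist_eq_one_iff_adj.mp hz, by simp⟩
  by_contra hne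
  push Not at hne
  obtain ⟨p, hp0, hpK, hpadj, hpd⟩ := exists_geod hx (Reachable.of_dist_ne_zero (by omega))
  obtain ⟨q, hq0, hqK, hqadj, hqd⟩ := exists_geod hz (Reachable.of_dist_ne_zero (by omega))
  have h0 : p 0 = q 0 := by rw [hp0, hq0]
  apply hno hk
  set L := 2 * (k + 1) + 1 with hL
  set c := glue L (k + 1) p q with hc
  have hper : ∀ i, c (i + L) = c i := glue_per L (k + 1) p q
  have hadj : ∀ i, G.Adj (c i) (c (i + 1)) := by
    apply glue_adj (by omega) h0 hpadj
    · intro i hi
      exact hqadj i (by omega)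
    · have : L - (k + 1 + 1) = k + 1 := by omega
      rw [this, hpK, hqK]
      exact hxz
  have hcp : ∀ i, i ≤ k + 1 → c i = p i := fun i hi => glue_p hi (by omega)
  have hcq : ∀ i, k + 1 < i → i ≤ L → c i = q (L - i) := fun i h1 h2 => glue_q h0 h1 h2
  have hub : ∀ i, G.dist (c i) (c (i + (k + 1) + 1)) ≤ k + 1 := by
    intro i
    have h1 : G.dist (c (i + (k + 1) + 1)) (c (i + (k + 1) + 1 + (k + 1))) ≤ k + 1 :=
      path_le hadj _ _
    rw [show i + (k + 1) + 1 + (k + 1) = i + L by omega, hper, SimpleGraph.dist_comm] at h1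
    exact h1
  have hE : ∀ i, i ≤ k + 1 → G.dist (c i) (c (i + (k + 1))) = k + 1 ∧
      G.dist (c i) (c (i + (k + 1) + 1)) = k + 1 := by
    intro i
    induction i with
    | zero =>
      intro _
      rw [Nat.zero_add, hcp 0 (by omega), hcp (k + 1) le_rfl, hp0, hpK,
        hcq _ (by omega) (by omega), show L - (k + 1 + 1) = k + 1 by omega, hqK]
      exact ⟨hx, hz⟩
    | succ i ih =>
      intro hi
      obtain ⟨hFi, hGi⟩ := ih (by omega)
      have hF : G.dist (c (i + 1)) (c (i + 1 + (k + 1))) = k + 1 := by
        by_contra hcon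
        have hle : G.dist (c (i + 1)) (c (i + 1 + (k + 1))) ≤ k + 1 := path_le hadj _ _
        have hlt : G.dist (c (i + 1)) (c (i + 1 + (k + 1))) ≤ k := by omega
        rcases Nat.eq_zero_or_pos i with rfl | hi0
        · rw [Nat.zero_add, show 1 + (k + 1) = k + 1 + 1 by omega,
            hcq (k + 1 + 1) (by omega) (by omega), show L - (k + 1 + 1) = k + 1 by omega,
            hqK] at hlt
          have h1 : G.dist (c 1) (c (1 + k)) ≤ k := path_le hadj _ _
          rw [show 1 + k = k + 1 by omega, hcp (k + 1) le_rfl, hpK] at h1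
          have hu1 : G.Adj u (c 1) := by
            have := hadj 0
            rwa [hcp 0 (by omega), hp0] at this
          have h2 : G.dist u x ≤ G.dist (c 1) x + 1 := lip' hu1.symm
          have h3 : G.dist u z ≤ G.dist (c 1) z + 1 := lip' hu1.symm
          obtain ⟨w, hwx, hwz, hdw⟩ := hB hk (c 1) x z hxz (by omega) (by omega)
          have h4 : G.dist u w ≤ G.dist (c 1) w + 1 := lip' hu1.symm
          have h5 := lip (u := u) hwx
          exact hne w hwx hwz (by omega)
        · have e0 : G.dist (c (i + (k + 1) + 1)) (c i) = k + 1 := by rw [SimpleGraph.dist_comm]; exact hGi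
          have e1 : G.Adj (c i) (c (i - 1)) := by
            have := hadj (i - 1)
            rw [show i - 1 + 1 = i by omega] at this
            exact this.symm
          have e2 : G.dist (c (i + (k + 1) + 1)) (c (i + 1)) + 1 = k + 1 := by
            have h1 := lip (u := c (i + (k + 1) + 1)) (hadj i).symm
            rw [SimpleGraph.dist_comm, show i + 1 + (k + 1) = i + (k + 1) + 1 by omega] at hlt
            omega
          have e3 : G.dist (c (i + (k + 1) + 1)) (c (i - 1)) + 1 = k + 1 := by
            have h1 : G.dist (c (i + (k + 1) + 1)) (c (i + (k + 1) + 1 + k)) ≤ k :=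
              path_le hadj _ _
            rw [show i + (k + 1) + 1 + k = i - 1 + L by omega, hper] at h1
            have h2 := lip (u := c (i + (k + 1) + 1)) e1.symm
            omega
          have hX := hA _ _ _ _ e0 (hadj i) e1 e2 e3
          rw [hcp (i + 1) (by omega), hcp (i - 1) (by omega)] at hX
          have d1 : G.dist u (p (i + 1)) = i + 1 := hpd _ (by omega)
          have d2 : G.dist u (p (i - 1)) = i - 1 := hpd _ (by omega)
          rcases hX with h | h
          · rw [h] at d1
            omega
          · have := lip (u := u) h.symm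
            omega
      refine ⟨hF, ?_⟩
      by_contra hcon
      have hle := hub (i + 1)
      have hlt : G.dist (c (i + 1)) (c (i + 1 + (k + 1) + 1)) ≤ k := by omega
      have e1 : G.Adj (c (i + 1 + (k + 1))) (c (i + 1 + k)) := (hadj (i + 1 + k)).symm
      have e2 : G.Adj (c (i + 1 + (k + 1))) (c (i + 1 + (k + 1) + 1)) := hadj _
      have e3 : G.dist (c (i + 1)) (c (i + 1 + k)) + 1 = k + 1 := by
        have h1 : G.dist (c (i + 1)) (c (i + 1 + k)) ≤ k := path_le hadj _ _
        have h2 := lip (u := c (i + 1)) e1.symm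
        omega
      have e4 : G.dist (c (i + 1)) (c (i + 1 + (k + 1) + 1)) + 1 = k + 1 := by
        have h2 := lip (u := c (i + 1)) e2.symm
        omega
      have hX := hA _ _ _ _ hF e1 e2 e3 e4
      rcases Nat.eq_zero_or_pos i with rfl | hi0
      · rw [show 0 + 1 + k = k + 1 by omega, show 0 + 1 + (k + 1) + 1 = k + 3 by omega,
          hcp (k + 1) le_rfl, hpK, hcq _ (by omega) (by omega),
          show L - (k + 3) = k by omega] at hX
        have d1 : G.dist u (q k) = k := hqd _ (by omega)
        rcases hX with h | h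
        · rw [h] at hx; omega
        · refine hne (q k) h.symm ?_ (by omega)
          have := hqadj k (by omega)
          rwa [hqK] at this
      · rw [hcq _ (by omega) (by omega), hcq _ (by omega) (by omega)] at hX
        have d1 : G.dist u (q (L - (i + 1 + k))) = L - (i + 1 + k) := hqd _ (by omega)
        have d2 : G.dist u (q (L - (i + 1 + (k + 1) + 1))) = L - (i + 1 + (k + 1) + 1) :=
          hqd _ (by omega)
        rcases hX with h | h
        · rw [h] at d1
          omega
        · have := lip (u := u) h.symm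
          omega
  refine ⟨c, hper, hadj, ?_⟩
  have hL2 : L / 2 = k + 1 := by omega
  rw [hL2]
  apply per_extend (P := fun y z => G.dist y z = k + 1) (L := L) (by omega) hper
  intro i hi
  rcases Nat.lt_or_ge (k + 1) i with h | h
  · have h1 := (hE (i - (k + 1) - 1) (by omega)).2
    rw [SimpleGraph.dist_comm, show i - (k + 1) - 1 + (k + 1) + 1 = i by omega] at h1
    rw [show i + (k + 1) = i - (k + 1) - 1 + L by omega, hper]
    exact h1
  · exact (hE i h).1

theorem far_of_two {x y : V} (h : G.dist x y = 2) : x ≠ y ∧ ¬ G.Adj x y := by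
  refine ⟨?_, ?_⟩
  · rintro rfl; simp at h
  · intro h'
    have := dist_eq_one_iff_adj.mpr h'
    omega

theorem noIso5 (h5 : NoC5 G) : ¬ ∃ c, IsoCyc G (2 * (1 + 1) + 1) c := by
  rintro ⟨c, hper, hadj, hd⟩
  have e : ∀ i, c i ≠ c (i + 2) ∧ ¬ G.Adj (c i) (c (i + 2)) := fun i => far_of_two (hd i)
  have p5 : c 5 = c 0 := hper 0
  have p6 : c 6 = c 1 := hper 1
  have a0 := hadj 0
  have a1 := hadj 1
  have a2 := hadj 2
  have a3 := hadj 3
  have a4 := hadj 4
  have f0 := e 0
  have f1 := e 1
  have f2 := e 2
  have f3 := e 3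
  have f4 := e 4
  norm_num [p5, p6] at a0 a1 a2 a3 a4 f0 f1 f2 f3 f4
  rcases h5 (c 0) (c 1) (c 2) (c 3) (c 4) a0 a1 a2 a3 a4 with
    (h | h | h | h | h) | (h | h | h | h | h)
  · exact f0.1 h
  · exact f1.1 h
  · exact f2.1 h
  · exact f3.1 h
  · exact f4.1 h
  · exact f0.2 h
  · exact f1.2 h
  · exact f2.2 h
  · exact f3.2 h
  · exact f4.2 h

theorem noIso4 (h4 : NoC4 G) : ¬ ∃ c, IsoCyc G 4 c := by
  rintro ⟨c, hper, hadj, hd⟩
  have e : ∀ i, c i ≠ c (i + 2) ∧ ¬ G.Adj (c i) (c (i + 2)) := fun i => far_of_two (hd i)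
  have p4 : c 4 = c 0 := hper 0
  have a0 := hadj 0
  have a1 := hadj 1
  have a2 := hadj 2
  have a3 := hadj 3
  have f0 := e 0
  have f1 := e 1
  norm_num [p4] at a0 a1 a2 a3 f0 f1
  rcases h4 (c 0) (c 1) (c 2) (c 3) a0 a1 a2 a3 with h | h | h | h
  · exact f0.1 h
  · exact f1.1 h
  · exact f0.2 h
  · exact f1.2 h

/-- Lower neighbourhoods are cliques and the triangle condition holds, up to the radius where
isometric cycles are excluded. -/
theorem AB_bound (h4 : NoC4 G) (h5 : NoC5 G) {N : ℕ}
    (hno : ∀ L, 6 ≤ L → L ≤ N → ¬ ∃ c, IsoCyc G L c) :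
    ∀ k, (2 * k ≤ N → LowClique G k) ∧ (1 ≤ k → 2 * k + 1 ≤ N → TriCond G k) := by
  intro k
  induction k with
  | zero =>
    refine ⟨fun _ => ?_, by omega⟩
    intro u x a b _ _ _ h _
    omega
  | succ k ih =>
    have hA : 2 * (k + 1) ≤ N → LowClique G (k + 1) := by
      intro hN
      exact stepA h4 h5 (ih.1 (by omega)) (fun h => ih.2 h (by omega))
        (fun h => hno _ (by omega) hN)
    refine ⟨hA, ?_⟩
    intro _ hN
    refine stepB (hA (by omega)) (fun h => ih.2 h (by omega)) ?_
    intro h
    rcases Nat.lt_or_ge k 2 with hk | hk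
    · -- L = 5
      have hk1 : k = 1 := by omega
      subst hk1
      exact noIso5 h5
    · exact hno _ (by omega) hN

end AB2

section Iso

variable {G : SimpleGraph V}

theorem iso_dist {L : ℕ} {c : ℕ → V} (h : IsoCyc G L c) (i : ℕ) {j : ℕ} (hj : j ≤ L / 2) :
    G.dist (c i) (c (i + j)) = j := by
  obtain ⟨_, hadj, hd⟩ := h
  have h1 := path_le hadj i j
  have h2 := path_lip hadj (c i) (i + j) (L / 2 - j)
  rw [show i + j + (L / 2 - j) = i + L / 2 by omega, hd i] at h2
  omega

theorem per_mod {c : ℕ → V} {L : ℕ} (hp : ∀ i, c (i + L) = c i) {i j : ℕ}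
    (h : i % L = j % L) : c i = c j := by
  have h1 : ∀ i, c i = c (i % L) := by
    intro i
    conv_lhs => rw [← Nat.mod_add_div i L]
    exact per_mul hp _ _
  rw [h1 i, h1 j, h]

end Iso

section Fin

variable {W : Type*} (H : SimpleGraph W) (h : W → ℕ)

/-- auxiliary BFS rank -/
noncomputable def R (e : W → ℕ) (M : ℕ) : ℕ → W → ℕ
  | 0, x => e x
  | k + 1, x => M * sInf {r | ∃ a, H.Adj x a ∧ h a = k ∧ r = R e M k a} + e x

theorem exists_rank [Finite W]
    (P1 : ∀ x, 1 ≤ h x → ∃ w, H.Adj x w ∧ h w + 1 = h x) :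
    ∃ ρ : W → ℕ, (∀ x z, ρ x = ρ z → x = z) ∧
      ∀ x z, h x = h z → ρ z ≤ ρ x → ∀ a, H.Adj x a → h a + 1 = h x →
        ∃ b, H.Adj z b ∧ h b + 1 = h z ∧ ρ b ≤ ρ a := by
  obtain ⟨n, ⟨e⟩⟩ := Finite.exists_equiv_fin W
  set E : W → ℕ := fun x => (e x : ℕ) with hE
  set M := n + 1 with hM
  have hlt : ∀ x, E x < M := fun x => by
    have := (e x).isLt
    simp only [hE]; omega
  have hinj : ∀ x z, E x = E z → x = z := by
    intro x z hxz
    exact e.injective (Fin.ext hxz)
  have hmod : ∀ k x, R H h E M k x % M = E x := by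
    intro k x
    cases k with
    | zero => simp only [R]; exact Nat.mod_eq_of_lt (hlt x)
    | succ k => simp only [R]; rw [Nat.mul_add_mod]; exact Nat.mod_eq_of_lt (hlt x)
  refine ⟨fun x => R H h E M (h x) x, ?_, ?_⟩
  · intro x z hxz
    apply hinj
    have h1 := hmod (h x) x
    have h2 := hmod (h z) z
    simp only at hxz
    rw [hxz] at h1
    omega
  · intro x z hxz hle a ha hha
    obtain ⟨k, hk⟩ : ∃ k, h x = k + 1 := ⟨h a, by omega⟩
    have hkz : h z = k + 1 := by omega
    obtain ⟨w, hw, hwz⟩ := P1 z (by omega)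
    set Sz := {r | ∃ a, H.Adj z a ∧ h a = k ∧ r = R H h E M k a} with hSz
    set Sx := {r | ∃ a, H.Adj x a ∧ h a = k ∧ r = R H h E M k a} with hSx
    have hne : Sz.Nonempty := ⟨_, w, hw, by omega, rfl⟩
    obtain ⟨b, hb, hbk, hbr⟩ := Nat.sInf_mem hne
    have hmx : sInf Sx ≤ R H h E M k a := Nat.sInf_le ⟨a, ha, by omega, rfl⟩
    refine ⟨b, hb, by omega, ?_⟩
    have hak : h a = k := by omega
    simp only [hbk, hak]
    simp only [hk, hkz] at hle
    have e1 : R H h E M (k + 1) z = M * sInf Sz + E z := rfl
    have e2 : R H h E M (k + 1) x = M * sInf Sx + E x := rfl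
    rw [e1, e2] at hle
    rw [← hbr]
    have h3 : sInf Sz ≤ sInf Sx := by
      by_contra hcon
      have h4 : sInf Sx + 1 ≤ sInf Sz := by omega
      have h5 : M * (sInf Sx + 1) ≤ M * sInf Sz := Nat.mul_le_mul_left _ h4
      have h6 := hlt x
      rw [Nat.mul_add] at h5
      omega
    omega

def IsFather (ρ : W → ℕ) (x f : W) : Prop :=
  H.Adj x f ∧ h f + 1 = h x ∧ ∀ a, H.Adj x a → h a + 1 = h x → ρ f ≤ ρ a

theorem exists_father (P1 : ∀ x, 1 ≤ h x → ∃ w, H.Adj x w ∧ h w + 1 = h x) (ρ : W → ℕ)
    (x : W) (hx : 1 ≤ h x) : ∃ f, IsFather H h ρ x f := by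
  classical
  obtain ⟨w, hw, hwx⟩ := P1 x hx
  have hex : ∃ r, ∃ a, H.Adj x a ∧ h a + 1 = h x ∧ ρ a = r := ⟨_, w, hw, hwx, rfl⟩
  obtain ⟨f, hf, hfx, hfr⟩ := Nat.find_spec hex
  refine ⟨f, hf, hfx, ?_⟩
  intro a ha hax
  rw [hfr]
  exact Nat.find_min' hex ⟨a, ha, hax, rfl⟩

variable {H h}

theorem domination
    (P0 : ∀ x z, H.Adj x z → h z ≤ h x + 1)
    (P1 : ∀ x, 1 ≤ h x → ∃ w, H.Adj x w ∧ h w + 1 = h x)
    (P2 : ∀ x z, H.Adj x z → h x = h z → ∃ w, H.Adj w x ∧ H.Adj w z ∧ h w + 1 = h x)
    (P3 : ∀ x a b, H.Adj x a → H.Adj x b → h a + 1 = h x → h b + 1 = h x → a = b ∨ H.Adj a b)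
    (h4 : NoC4 H) (h5 : NoC5 H) {ρ : W → ℕ} (r1 : ∀ x z, ρ x = ρ z → x = z)
    (r2 : ∀ x z, h x = h z → ρ z ≤ ρ x → ∀ a, H.Adj x a → h a + 1 = h x →
        ∃ b, H.Adj z b ∧ h b + 1 = h z ∧ ρ b ≤ ρ a) :
    ∀ k x z f, h x = k → h z = k → H.Adj x z → ρ z < ρ x → IsFather H h ρ x f → H.Adj z f := by
  intro k
  induction k with
  | zero =>
    intro x z f hx _ _ _ hf
    obtain ⟨_, h2, _⟩ := hf
    omega
  | succ k ih =>
    intro x z f hx hz hxz hlt hf
    obtain ⟨hf1, hf2, hf3⟩ := hf
    by_contra hzf
    obtain ⟨g, hg1, hg2, hg3⟩ := exists_father H h P1 ρ z (by omega)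
    obtain ⟨b, hb1, hb2, hb3⟩ := r2 x z (by omega) hlt.le f hf1 hf2
    have hgf : ρ g ≤ ρ f := (hg3 b hb1 hb2).trans hb3
    have hgne : g ≠ f := by rintro rfl; exact hzf hg1
    have hgf' : ρ g < ρ f := lt_of_le_of_ne hgf (fun e => hgne (r1 _ _ e))
    obtain ⟨w, hwx, hwz, hhw⟩ := P2 x z hxz (by omega)
    have hwf : w ≠ f := by rintro rfl; exact hzf hwz.symm
    have hwf' : H.Adj w f := by
      rcases P3 x w f hwx.symm hf1 hhw hf2 with e | e
      · exact absurd e hwf
      · exact e
    have hfw : ρ f < ρ w := lt_of_le_of_ne (hf3 w hwx.symm hhw) (fun e => hwf (r1 _ _ e).symm)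
    have hxg : ¬ H.Adj x g := by
      intro e
      have := hf3 g e (by omega)
      omega
    have hwg : w ≠ g := by rintro rfl; exact hxg hwx.symm
    have hwg' : H.Adj w g := by
      rcases P3 z w g hwz.symm hg1 (by omega) hg2 with e | e
      · exact absurd e hwg
      · exact e
    have hzf' : z ≠ f := by rintro rfl; omega
    have hxg' : x ≠ g := by rintro rfl; omega
    have hgfA : ¬ H.Adj g f := by
      intro e
      rcases h4 z g f x hg1 e hf1.symm hxz with e | e | e | e
      · exact hzf' e
      · exact hxg' e.symm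
      · exact hzf e
      · exact hxg e.symm
    have hw1 : 1 ≤ h w := by
      by_contra hcon
      obtain ⟨w', _, _, hw'⟩ := P2 w f hwf' (by omega)
      omega
    obtain ⟨g', hg'⟩ := exists_father H h P1 ρ w hw1
    have a1 : H.Adj f g' := ih w f g' (by omega) (by omega) hwf' hfw hg'
    have a2 : H.Adj g g' := ih w g g' (by omega) (by omega) hwg' (by omega) hg'
    have hg'h : h g' + 1 = h w := hg'.2.1
    have hxg'' : ¬ H.Adj x g' := by
      intro e
      have := P0 g' x e.symm
      omega
    have hzg'' : ¬ H.Adj z g' := by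
      intro e
      have := P0 g' z e.symm
      omega
    rcases h5 z x f g' g hxz.symm hf1 a1 a2.symm hg1.symm with
      (e | e | e | e | e) | (e | e | e | e | e)
    · exact hzf' e
    · rw [← e] at hg'h; omega
    · exact hgne e.symm
    · rw [e] at hg'h; omega
    · exact hxg' e.symm
    · exact hzf e
    · exact hxg'' e
    · exact hgfA e.symm
    · exact hzg'' e.symm
    · exact hxg e.symm

theorem noIso_of_heights [Finite W]
    (P0 : ∀ x z, H.Adj x z → h z ≤ h x + 1)
    (P1 : ∀ x, 1 ≤ h x → ∃ w, H.Adj x w ∧ h w + 1 = h x)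
    (P2 : ∀ x z, H.Adj x z → h x = h z → ∃ w, H.Adj w x ∧ H.Adj w z ∧ h w + 1 = h x)
    (P3 : ∀ x a b, H.Adj x a → H.Adj x b → h a + 1 = h x → h b + 1 = h x → a = b ∨ H.Adj a b)
    (h4 : NoC4 H) (h5 : NoC5 H) : ∀ L, 4 ≤ L → ¬ ∃ c, IsoCyc H L c := by
  classical
  obtain ⟨ρ, r1, r2⟩ := exists_rank H h P1
  by_contra hcon
  push Not at hcon
  have hex : ∃ L, 4 ≤ L ∧ ∃ c, IsoCyc H L c := hcon
  obtain ⟨hL4, hexc⟩ := Nat.find_spec hex
  set L := Nat.find hex with hLdef
  have hmin : ∀ L', 4 ≤ L' → L' < L → ¬ ∃ c, IsoCyc H L' c := fun L' h1 h2 h3 =>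
    Nat.find_min hex h2 ⟨h1, h3⟩
  have hL6 : 6 ≤ L := by
    by_contra hlt
    have : L = 4 ∨ L = 5 := by omega
    rcases this with h | h
    · rw [h] at hexc; exact noIso4 h4 hexc
    · rw [h] at hexc; exact noIso5 h5 hexc
  have hAB := AB_bound h4 h5 (N := L - 1) (fun L' h1 h2 => hmin L' (by omega) (by omega))
  -- minimise the sum of heights
  have hexs : ∃ s, ∃ c, IsoCyc H L c ∧ ∑ i ∈ Finset.range L, h (c i) = s := by
    obtain ⟨c, hc⟩ := hexc
    exact ⟨_, c, hc, rfl⟩
  obtain ⟨c, hc, hsum⟩ := Nat.find_spec hexs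
  have hmins : ∀ c', IsoCyc H L c' →
      ∑ i ∈ Finset.range L, h (c i) ≤ ∑ i ∈ Finset.range L, h (c' i) := by
    intro c' hc'
    rw [hsum]
    exact Nat.find_min' hexs ⟨c', hc', rfl⟩
  obtain ⟨hper, hadj, hd⟩ := hc
  have hc : IsoCyc H L c := ⟨hper, hadj, hd⟩
  obtain ⟨i0, hi0, hmax⟩ := Finset.exists_max_image (Finset.range L)
    (fun i => toLex (h (c i), ρ (c i))) ⟨0, Finset.mem_range.mpr (by omega)⟩
  have hi0 : i0 < L := Finset.mem_range.mp hi0
  have hmaxi : ∀ i, h (c i) < h (c i0) ∨ (h (c i) = h (c i0) ∧ ρ (c i) ≤ ρ (c i0)) := by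
    intro i
    have h1 := hmax (i % L) (Finset.mem_range.mpr (Nat.mod_lt _ (by omega)))
    have h2 : c i = c (i % L) := per_mod hper (by simp)
    rw [h2]
    rw [Prod.Lex.toLex_le_toLex] at h1
    exact h1
  set x := c i0 with hx
  set u := c (i0 + 1) with hu
  set v := c (i0 + (L - 1)) with hv
  have hxu : H.Adj x u := hadj i0
  have hxv : H.Adj x v := by
    have := hadj (i0 + (L - 1))
    rw [show i0 + (L - 1) + 1 = i0 + L by omega, hper] at this
    exact this.symm
  have hhx : 1 ≤ h x := by
    by_contra hcon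
    have h1 := hmaxi (i0 + 1)
    obtain ⟨w, _, _, hw⟩ := P2 x u hxu (by
      rcases h1 with h1 | h1
      · omega
      · exact h1.1.symm)
    omega
  obtain ⟨y, hy⟩ := exists_father H h P1 ρ x hhx
  have hdom : ∀ i, H.Adj x (c i) → c i = y ∨ H.Adj (c i) y := by
    intro i hi
    rcases hmaxi i with h1 | ⟨h1, h2⟩
    · have h3 := P0 (c i) x hi.symm
      exact P3 x (c i) y hi hy.1 (by omega) hy.2.1
    · right
      have hne : ρ (c i) ≠ ρ x := fun e => hi.ne (r1 _ _ e).symm
      exact domination P0 P1 P2 P3 h4 h5 r1 r2 (h x) x (c i) y rfl h1 hi (by omega) hy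
  have huv : H.dist v u = 2 := by
    have := iso_dist hc (i0 + (L - 1)) (j := 2) (by omega)
    rw [show i0 + (L - 1) + 2 = i0 + 1 + L by omega, hper] at this
    exact this
  obtain ⟨huv1, huv2⟩ := far_of_two huv
  have hyu : H.Adj u y := by
    rcases hdom _ hxu with e | e
    · exfalso
      rcases hdom _ hxv with e' | e'
      · exact huv1 (by rw [hv, hu, e, e'])
      · exact huv2 (by rw [hu, e]; exact e')
    · exact e
  have hyv : H.Adj v y := by
    rcases hdom _ hxv with e | e
    · exfalso
      rcases hdom _ hxu with e' | e'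
      · exact huv1 (by rw [hv, hu, e, e'])
      · exact huv2 (by rw [hv, e]; exact e'.symm)
    · exact e
  have hxy : H.Adj x y := hy.1
  -- the modified cycle
  set c' : ℕ → W := fun i => if i % L = i0 then y else c i with hc'
  have hper' : ∀ i, c' (i + L) = c' i := by
    intro i
    simp only [hc', Nat.add_mod_right, hper]
  have hmodi0 : i0 % L = i0 := Nat.mod_eq_of_lt hi0
  have hadj' : ∀ i, H.Adj (c' i) (c' (i + 1)) := by
    intro i
    by_cases h1 : i % L = i0
    · have h2 : (i + 1) % L ≠ i0 := by
        intro h2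
        have h3 : (i0 + 1) % L = i0 := by
          have h5' : (i + 1) % L = (i0 + 1) % L :=
            Nat.ModEq.add_right 1 (show i % L = i0 % L by rw [h1, hmodi0])
          rw [← h5', h2]
        rcases Nat.lt_or_ge (i0 + 1) L with h4 | h4
        · rw [Nat.mod_eq_of_lt h4] at h3; omega
        · have : i0 + 1 = L := by omega
          rw [this, Nat.mod_self] at h3; omega
      simp only [hc', h1, h2, if_true, if_false]
      have h3 : c (i + 1) = u := by
        apply per_mod hper
        exact Nat.ModEq.add_right 1 (show i % L = i0 % L by rw [h1, hmodi0])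
      rw [h3]
      exact hyu.symm
    · by_cases h2 : (i + 1) % L = i0
      · simp only [hc', h1, h2, if_true, if_false]
        have h3 : c i = v := by
          apply per_mod hper
          have : (i + 1 + (L - 1)) % L = (i0 + (L - 1)) % L :=
            Nat.ModEq.add_right (L - 1) (show (i + 1) % L = i0 % L by rw [h2, hmodi0])
          rw [← this, show i + 1 + (L - 1) = i + L by omega]
          simp
        rw [h3]
        exact hyv
      · simp only [hc', h1, h2, if_false]
        exact hadj i
  have hnot : ¬ IsoCyc H L c' := by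
    intro hcc
    have h1 := hmins c' hcc
    have h2 : ∑ i ∈ Finset.range L, h (c' i) < ∑ i ∈ Finset.range L, h (c i) := by
      apply Finset.sum_lt_sum
      · intro i hi
        by_cases h3 : i % L = i0
        · simp only [hc', h3, if_true]
          have hcx : c i = x := per_mod hper (by rw [h3, hmodi0])
          have := hy.2.1
          rw [hcx]
          show h y ≤ h x
          omega
        · simp only [hc', h3, if_false]
          exact le_rfl
      · refine ⟨i0, Finset.mem_range.mpr hi0, ?_⟩
        simp only [hc', hmodi0, if_true]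
        have := hy.2.1
        show h y < h x
        omega
    omega
  have hfail : H.dist y (c (i0 + L / 2)) < L / 2 ∨ H.dist y (c (i0 + (L - L / 2))) < L / 2 := by
    by_contra hcon
    push Not at hcon
    apply hnot
    refine ⟨hper', hadj', ?_⟩
    intro i
    apply le_antisymm (path_le hadj' _ _)
    by_cases h1 : i % L = i0
    · have h2 : (i + L / 2) % L ≠ i0 := by
        intro h2
        have h3 : (i0 + L / 2) % L = i0 := by
          have h5' : (i + L / 2) % L = (i0 + L / 2) % L :=
            Nat.ModEq.add_right (L / 2) (show i % L = i0 % L by rw [h1, hmodi0])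
          rw [← h5', h2]
        rcases Nat.lt_or_ge (i0 + L / 2) L with h4 | h4
        · rw [Nat.mod_eq_of_lt h4] at h3; omega
        · rw [Nat.mod_eq_sub_mod h4, Nat.mod_eq_of_lt (by omega)] at h3; omega
      simp only [hc', h1, h2, if_true, if_false]
      have h3 : c (i + L / 2) = c (i0 + L / 2) := by
        apply per_mod hper
        exact Nat.ModEq.add_right (L / 2) (show i % L = i0 % L by rw [h1, hmodi0])
      rw [h3]
      exact hcon.1
    · by_cases h2 : (i + L / 2) % L = i0
      · simp only [hc', h1, h2, if_true, if_false]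
        have h3 : c i = c (i0 + (L - L / 2)) := by
          apply per_mod hper
          have : (i + L / 2 + (L - L / 2)) % L = (i0 + (L - L / 2)) % L :=
            Nat.ModEq.add_right (L - L / 2) (show (i + L / 2) % L = i0 % L by rw [h2, hmodi0])
          rw [← this, show i + L / 2 + (L - L / 2) = i + L by omega]
          simp
        rw [h3, SimpleGraph.dist_comm]
        exact hcon.2
      · simp only [hc', h1, h2, if_false]
        exact (hd i).ge
  obtain ⟨m, hm | hm⟩ := Nat.even_or_odd' L
  · -- even
    have hL2 : L / 2 = m := by omega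
    have hzy : H.dist (c (i0 + m)) y ≤ m - 1 := by
      rw [hL2, show L - m = m by omega] at hfail
      rw [SimpleGraph.dist_comm]
      omega
    set z := c (i0 + m) with hz
    have hzx : H.dist z x = m := by
      rw [SimpleGraph.dist_comm]
      exact iso_dist hc i0 (by omega)
    have hzu : H.dist z u = m - 1 := by
      rw [SimpleGraph.dist_comm]
      have := iso_dist hc (i0 + 1) (j := m - 1) (by omega)
      rw [show i0 + 1 + (m - 1) = i0 + m by omega] at this
      exact this
    have hzv : H.dist z v = m - 1 := by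
      have := iso_dist hc (i0 + m) (j := m - 1) (by omega)
      rw [show i0 + m + (m - 1) = i0 + (L - 1) by omega] at this
      exact this
    have hzy' : H.dist z y = m - 1 := by
      have := lip (u := z) hxy.symm
      omega
    have hT := (hAB (m - 1)).2 (by omega) (by omega)
    have hLC := (hAB (m - 1)).1 (by omega)
    obtain ⟨a, hau, hay, hza⟩ := hT z u y hyu hzu hzy'
    obtain ⟨b, hbv, hby, hzb⟩ := hT z v y hyv hzv hzy'
    have hxa : x ≠ a := by rintro e; rw [← e] at hza; omega
    have hxb : x ≠ b := by rintro e; rw [← e] at hzb; omega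
    have hxa' : ¬ H.Adj x a := by
      intro e
      have := lip (u := z) e.symm
      omega
    have hxb' : ¬ H.Adj x b := by
      intro e
      have := lip (u := z) e.symm
      omega
    have hva : ¬ H.Adj v a := by
      intro e
      rcases h4 x u a v hxu hau.symm e.symm hxv.symm with e | e | e | e
      · exact hxa e
      · exact huv1 e.symm
      · exact hxa' e
      · exact huv2 e.symm
    have hub : ¬ H.Adj u b := by
      intro e
      rcases h4 x u b v hxu e hbv hxv.symm with e | e | e | e
      · exact hxb e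
      · exact huv1 e.symm
      · exact hxb' e
      · exact huv2 e.symm
    rcases hLC z y a b hzy' hay.symm hby.symm hza hzb with e | e
    · rw [e] at hva
      exact hva hbv.symm
    · rcases h5 x u a b v hxu hau.symm e hbv hxv.symm with
        (e | e | e | e | e) | (e | e | e | e | e)
      · exact hxa e
      · rw [← e] at hzb; omega
      · rw [e] at hza; omega
      · exact hxb e.symm
      · exact huv1 e
      · exact hxa' e
      · exact hub e
      · exact hva e.symm
      · exact hxb' e.symm
      · exact huv2 e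
  · -- odd
    have hL2 : L / 2 = m := by omega
    have hLC := (hAB m).1 (by omega)
    rcases hfail with hf | hf
    · rw [hL2] at hf
      set z := c (i0 + m) with hz
      have hzx : H.dist z x = m := by
        rw [SimpleGraph.dist_comm]
        exact iso_dist hc i0 (by omega)
      have hzy' : H.dist z y + 1 = m := by
        have := lip (u := z) hxy.symm
        rw [SimpleGraph.dist_comm] at hf
        omega
      have hzv : H.dist z v = m := by
        have := iso_dist hc (i0 + m) (j := m) (by omega)
        rw [show i0 + m + m = i0 + (L - 1) by omega] at this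
        exact this
      set b := c (i0 + (L - 2)) with hb
      have hvb : H.Adj v b := by
        have := hadj (i0 + (L - 2))
        rw [show i0 + (L - 2) + 1 = i0 + (L - 1) by omega] at this
        exact this.symm
      have hzb : H.dist z b + 1 = m := by
        have := iso_dist hc (i0 + m) (j := m - 1) (by omega)
        rw [show i0 + m + (m - 1) = i0 + (L - 2) by omega] at this
        change H.dist z b = m - 1 at this
        omega
      have hbu : H.dist b u = 3 := by
        have := iso_dist hc (i0 + (L - 2)) (j := 3) (by omega)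
        rw [show i0 + (L - 2) + 3 = i0 + 1 + L by omega, hper] at this
        exact this
      have h1 := lip (u := b) hyu.symm
      rcases hLC z v y b hzv hyv hvb hzy' hzb with e | e
      · rw [e] at h1
        simp at h1
        omega
      · have := dist_eq_one_iff_adj.mpr e.symm
        omega
    · rw [hL2, show L - m = m + 1 by omega] at hf
      set z := c (i0 + (m + 1)) with hz
      have hzx : H.dist z x = m := by
        have := iso_dist hc (i0 + (m + 1)) (j := m) (by omega)
        rw [show i0 + (m + 1) + m = i0 + L by omega, hper] at this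
        exact this
      have hzy' : H.dist z y + 1 = m := by
        have := lip (u := z) hxy.symm
        rw [SimpleGraph.dist_comm] at hf
        omega
      have hzu : H.dist z u = m := by
        rw [SimpleGraph.dist_comm]
        have := iso_dist hc (i0 + 1) (j := m) (by omega)
        rw [show i0 + 1 + m = i0 + (m + 1) by omega] at this
        exact this
      set b := c (i0 + 2) with hb
      have hub : H.Adj u b := hadj (i0 + 1)
      have hzb : H.dist z b + 1 = m := by
        have := iso_dist hc (i0 + 2) (j := m - 1) (by omega)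
        rw [show i0 + 2 + (m - 1) = i0 + (m + 1) by omega] at this
        change H.dist b z = m - 1 at this
        rw [SimpleGraph.dist_comm]
        omega
      have hvb : H.dist v b = 3 := by
        have := iso_dist hc (i0 + (L - 1)) (j := 3) (by omega)
        rw [show i0 + (L - 1) + 3 = i0 + 2 + L by omega, hper] at this
        exact this
      have h1 := lip (u := b) hyv.symm
      rw [SimpleGraph.dist_comm] at hvb
      rcases hLC z u y b hzu hyu hub hzy' hzb with e | e
      · rw [e] at h1
        simp at h1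
        omega
      · have := dist_eq_one_iff_adj.mpr e.symm
        omega

end Fin

section Walks

variable {G : SimpleGraph V}

/-- walk along a sequence -/
def walkFrom {c : ℕ → V} (hadj : ∀ i, G.Adj (c i) (c (i + 1))) :
    ∀ (n i : ℕ), G.Walk (c i) (c (i + n))
  | 0, i => Walk.nil
  | n + 1, i => Walk.cons (hadj i)
      ((walkFrom hadj n (i + 1)).copy rfl (by rw [show i + 1 + n = i + (n + 1) by omega]))

theorem walkFrom_length {c : ℕ → V} (hadj : ∀ i, G.Adj (c i) (c (i + 1))) (n i : ℕ) :
    (walkFrom hadj n i).length = n := by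
  induction n generalizing i with
  | zero => rfl
  | succ n ih => simp [walkFrom, ih]

theorem walkFrom_getVert {c : ℕ → V} (hadj : ∀ i, G.Adj (c i) (c (i + 1))) (n i j : ℕ)
    (hj : j ≤ n) : (walkFrom hadj n i).getVert j = c (i + j) := by
  induction n generalizing i j with
  | zero =>
    have : j = 0 := by omega
    subst this
    rfl
  | succ n ih =>
    cases j with
    | zero => simp [walkFrom]
    | succ j =>
      simp only [walkFrom, Walk.getVert_cons_succ, Walk.getVert_copy]
      rw [ih (i + 1) j (by omega), show i + 1 + j = i + (j + 1) by omega]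

theorem walkFrom_support {c : ℕ → V} (hadj : ∀ i, G.Adj (c i) (c (i + 1))) (n i : ℕ) :
    (walkFrom hadj n i).support = (List.range (n + 1)).map (fun j => c (i + j)) := by
  induction n generalizing i with
  | zero => simp [walkFrom]
  | succ n ih =>
    simp only [walkFrom, Walk.support_cons, Walk.support_copy]
    rw [ih (i + 1), List.range_succ_eq_map (n := n + 1), List.map_cons, List.map_map]
    congr 1
    apply List.map_congr_left
    intro j _
    simp only [Function.comp_apply]
    rw [show i + 1 + j = i + Nat.succ j by omega]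

theorem iso_ne {L : ℕ} {c : ℕ → V} (h : IsoCyc G L c) {i j : ℕ} (hij : i < j)
    (hji : j < i + L) : c i ≠ c j := by
  intro e
  rcases Nat.lt_or_ge (L / 2) (j - i) with h1 | h1
  · have h2 := iso_dist h j (j := i + L - j) (by omega)
    rw [show j + (i + L - j) = i + L by omega, h.1, ← e] at h2
    simp at h2
    omega
  · have h2 := iso_dist h i (j := j - i) h1
    rw [show i + (j - i) = j by omega, ← e] at h2
    simp at h2
    omega

/-- The walk version of the bridged property excludes isometric cycles. -/
theorem noIso_of_walks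
    (hG : ∀ (u : V) (c : G.Walk u u), c.IsCycle → 4 ≤ c.length →
        ∃ i j : ℕ, i ≤ j ∧ j < c.length ∧
          G.dist (c.getVert i) (c.getVert j) < min (j - i) (c.length - (j - i)))
    {L : ℕ} (hL : 4 ≤ L) : ¬ ∃ c, IsoCyc G L c := by
  rintro ⟨c, hc⟩
  obtain ⟨hper, hadj, hd⟩ := id hc
  set w : G.Walk (c 0) (c 0) := (walkFrom hadj L 0).copy rfl (hper 0) with hw
  have hlen : w.length = L := by
    rw [hw, Walk.length_copy, walkFrom_length]
  have hget : ∀ j, j ≤ L → w.getVert j = c j := by
    intro j hj
    rw [hw, Walk.getVert_copy, walkFrom_getVert hadj _ _ _ hj, Nat.zero_add]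
  have hcyc : w.IsCycle := by
    rw [Walk.isCycle_iff_isPath_tail_and_le_length]
    refine ⟨?_, by omega⟩
    rw [Walk.isPath_def]
    have hnil : ¬ w.Nil := by
      intro hn
      have := Walk.length_eq_zero_iff.mpr hn
      omega
    rw [Walk.support_tail_of_not_nil _ hnil]
    have hsup : w.support = (List.range (L + 1)).map (fun j => c (0 + j)) := by
      rw [hw, Walk.support_copy, walkFrom_support]
    rw [hsup, List.range_succ_eq_map, List.map_cons, List.tail_cons, List.map_map]
    apply List.Nodup.map_on _ List.nodup_range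
    intro i hi j hj hij
    simp only [Function.comp_apply, Nat.zero_add] at hij
    rw [List.mem_range] at hi hj
    by_contra hne
    rcases Nat.lt_or_gt_of_ne hne with h | h
    · exact iso_ne hc (by simp only [Nat.succ_eq_add_one]; omega)
        (by simp only [Nat.succ_eq_add_one]; omega) hij
    · exact iso_ne hc (by simp only [Nat.succ_eq_add_one]; omega)
        (by simp only [Nat.succ_eq_add_one]; omega) hij.symm
  obtain ⟨i, j, hij, hj, hlt⟩ := hG _ w hcyc (by omega)
  rw [hlen] at hj hlt
  rw [hget i (by omega), hget j (by omega)] at hlt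
  rcases Nat.lt_or_ge (L / 2) (j - i) with h1 | h1
  · have h2 := iso_dist hc j (j := i + L - j) (by omega)
    rw [show j + (i + L - j) = i + L by omega, hper, SimpleGraph.dist_comm] at h2
    omega
  · have h2 := iso_dist hc i (j := j - i) h1
    rw [show i + (j - i) = j by omega] at h2
    omega

theorem dist_two {x y w : V} (h1 : G.Adj x w) (h2 : G.Adj w y) (hne : x ≠ y)
    (hna : ¬ G.Adj x y) : G.dist x y = 2 := by
  have h3 : G.Reachable x y := h1.reachable.trans h2.reachable
  have h4 := h3.one_lt_dist_of_ne_of_not_adj hne hna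
  have h5 := lip (u := x) h2
  have h6 := dist_eq_one_iff_adj.mpr h1
  omega

theorem noC4_of_noIso (h : ¬ ∃ c, IsoCyc G 4 c) : NoC4 G := by
  intro a b c d hab hbc hcd hda
  by_contra hcon
  push Not at hcon
  obtain ⟨n1, n2, n3, n4⟩ := hcon
  apply h
  refine ⟨fun i => if i % 4 = 0 then a else if i % 4 = 1 then b else if i % 4 = 2 then c else d,
    ?_, ?_, ?_⟩
  · intro i
    simp
  · apply per_extend (P := G.Adj) (L := 4) (by norm_num)
    · intro i; simp
    · intro i hi
      interval_cases i
      · simpa using hab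
      · simpa using hbc
      · simpa using hcd
      · simpa using hda
  · apply per_extend (P := fun y z => G.dist y z = 2) (L := 4) (by norm_num)
    · intro i; simp
    · intro i hi
      interval_cases i
      · simpa using dist_two hab hbc n1 n3
      · simpa using dist_two hbc hcd n2 n4
      · simpa using dist_two hcd hda n1.symm (fun e => n3 e.symm)
      · simpa using dist_two hda hab n2.symm (fun e => n4 e.symm)

theorem noC5_of_noIso (h : ¬ ∃ c, IsoCyc G 5 c) : NoC5 G := by
  intro a b c d e hab hbc hcd hde hea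
  by_contra hcon
  push Not at hcon
  obtain ⟨⟨n1, n2, n3, n4, n5⟩, m1, m2, m3, m4, m5⟩ := hcon
  apply h
  refine ⟨fun i => if i % 5 = 0 then a else if i % 5 = 1 then b else if i % 5 = 2 then c
    else if i % 5 = 3 then d else e, ?_, ?_, ?_⟩
  · intro i
    simp
  · apply per_extend (P := G.Adj) (L := 5) (by norm_num)
    · intro i; simp
    · intro i hi
      interval_cases i
      · simpa using hab
      · simpa using hbc
      · simpa using hcd
      · simpa using hde
      · simpa using hea
  · apply per_extend (P := fun y z => G.dist y z = 2) (L := 5) (by norm_num)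
    · intro i; simp
    · intro i hi
      interval_cases i
      · simpa using dist_two hab hbc n1 m1
      · simpa using dist_two hbc hcd n2 m2
      · simpa using dist_two hcd hde n3 m3
      · simpa using dist_two hde hea n4 m4
      · simpa using dist_two hea hab n5 m5

/-- Excluding isometric cycles gives the walk version of the bridged property. -/
theorem walks_of_noIso {L : ℕ} (h : ¬ ∃ c, IsoCyc G L c) (hL : 4 ≤ L)
    (u : V) (p : G.Walk u u) (hp : p.length = L) :
    ∃ i j : ℕ, i ≤ j ∧ j < p.length ∧
      G.dist (p.getVert i) (p.getVert j) < min (j - i) (p.length - (j - i)) := by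
  by_contra hcon
  push Not at hcon
  rw [hp] at hcon
  apply h
  set c : ℕ → V := fun i => p.getVert (i % L) with hc
  have hper : ∀ i, c (i + L) = c i := by intro i; simp [hc]
  have hcl : ∀ i, i < L → c i = p.getVert i := by
    intro i hi
    simp only [hc]
    rw [Nat.mod_eq_of_lt hi]
  have hadj : ∀ i, G.Adj (c i) (c (i + 1)) := by
    apply per_extend (P := G.Adj) (L := L) (by omega) hper
    intro i hi
    rw [hcl i hi]
    rcases Nat.lt_or_ge (i + 1) L with h1 | h1
    · rw [hcl _ h1]
      exact p.adj_getVert_succ (by omega)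
    · have h2 : i + 1 = L := by omega
      have h3 : c (i + 1) = p.getVert (i + 1) := by
        rw [h2]
        have : c L = c 0 := by
          have := hper 0
          rwa [Nat.zero_add] at this
        rw [this, hcl 0 (by omega), Walk.getVert_zero, ← hp, Walk.getVert_length]
      rw [h3]
      exact p.adj_getVert_succ (by omega)
  refine ⟨c, hper, hadj, ?_⟩
  apply per_extend (P := fun y z => G.dist y z = L / 2) (L := L) (by omega) hper
  intro i hi
  apply le_antisymm (path_le hadj _ _)
  rcases Nat.lt_or_ge (i + L / 2) L with h1 | h1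
  · rw [hcl i hi, hcl _ h1]
    have := hcon i (i + L / 2) (by omega) h1
    omega
  · have h2 : c (i + L / 2) = c (i + L / 2 - L) := by
      have := hper (i + L / 2 - L)
      rw [show i + L / 2 - L + L = i + L / 2 by omega] at this
      exact this
    rw [h2, hcl i hi, hcl _ (by omega), SimpleGraph.dist_comm]
    have := hcon (i + L / 2 - L) i (by omega) hi
    omega

end Walks

section Closure

variable {G : SimpleGraph V}

theorem exists_closure (h : V → ℕ)
    (P1 : ∀ x, 1 ≤ h x → ∃ w, G.Adj x w ∧ h w + 1 = h x)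
    (P2 : ∀ x z, G.Adj x z → h x = h z → ∃ w, G.Adj w x ∧ G.Adj w z ∧ h w + 1 = h x) :
    ∀ (n : ℕ) (S : Finset V), (∀ x ∈ S, h x ≤ n) → ∃ F : Finset V, S ⊆ F ∧ (∀ x ∈ F, h x ≤ n) ∧
      (∀ x ∈ F, 1 ≤ h x → ∃ w ∈ F, G.Adj x w ∧ h w + 1 = h x) ∧
      (∀ x ∈ F, ∀ z ∈ F, G.Adj x z → h x = h z →
        ∃ w ∈ F, G.Adj w x ∧ G.Adj w z ∧ h w + 1 = h x) := by
  classical
  have hp1 : ∃ p1 : V → V, ∀ x, 1 ≤ h x → G.Adj x (p1 x) ∧ h (p1 x) + 1 = h x := by
    refine ⟨fun x => if hx : 1 ≤ h x then (P1 x hx).choose else x, ?_⟩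
    intro x hx
    simp only [hx, dite_true]
    exact (P1 x hx).choose_spec
  have hp2 : ∃ p2 : V × V → V, ∀ x z, G.Adj x z → h x = h z →
      G.Adj (p2 (x, z)) x ∧ G.Adj (p2 (x, z)) z ∧ h (p2 (x, z)) + 1 = h x := by
    refine ⟨fun q => if hq : G.Adj q.1 q.2 ∧ h q.1 = h q.2 then
      (P2 q.1 q.2 hq.1 hq.2).choose else q.1, ?_⟩
    intro x z hxz hh
    have hq : G.Adj (x, z).1 (x, z).2 ∧ h (x, z).1 = h (x, z).2 := ⟨hxz, hh⟩
    beta_reduce
    rw [dif_pos hq]
    exact (P2 x z hxz hh).choose_spec
  obtain ⟨p1, hp1⟩ := hp1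
  obtain ⟨p2, hp2⟩ := hp2
  intro n
  induction n with
  | zero =>
    intro S hS
    refine ⟨S, Finset.Subset.refl _, hS, ?_, ?_⟩
    · intro x hx h1
      have := hS x hx
      omega
    · intro x hx z hz hxz hh
      obtain ⟨w, _, _, hw⟩ := P2 x z hxz hh
      have := hS x hx
      omega
  | succ n ih =>
    intro S hS
    set T := S.filter (fun x => h x = n + 1) with hT
    set S' := S.filter (fun x => h x ≤ n) ∪ T.image p1 ∪
      ((T ×ˢ T).filter (fun q => G.Adj q.1 q.2)).image p2 with hS'
    have hTm : ∀ x, x ∈ T ↔ x ∈ S ∧ h x = n + 1 := by intro x; simp [hT]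
    have hS'n : ∀ x ∈ S', h x ≤ n := by
      intro x hx
      simp only [hS', Finset.mem_union, Finset.mem_filter, Finset.mem_image,
        Finset.mem_product] at hx
      rcases hx with (⟨_, hx⟩ | ⟨y, hy, rfl⟩) | ⟨⟨y, z⟩, ⟨⟨hy, hz⟩, hyz⟩, rfl⟩
      · exact hx
      · have h1 := (hTm y).mp hy
        have := (hp1 y (by omega)).2
        omega
      · simp only at hy hz hyz
        have h1 := (hTm y).mp hy
        have h2 := (hTm z).mp hz
        have := (hp2 y z hyz (by omega)).2.2
        omega
    obtain ⟨F, hSF, hFn, hF1, hF2⟩ := ih S' hS'n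
    refine ⟨F ∪ T, ?_, ?_, ?_, ?_⟩
    · intro x hx
      rw [Finset.mem_union]
      rcases Nat.lt_or_ge (h x) (n + 1) with h1 | h1
      · left
        apply hSF
        simp only [hS', Finset.mem_union, Finset.mem_filter]
        exact Or.inl (Or.inl ⟨hx, by omega⟩)
      · right
        have := hS x hx
        exact (hTm x).mpr ⟨hx, by omega⟩
    · intro x hx
      rw [Finset.mem_union] at hx
      rcases hx with hx | hx
      · have := hFn x hx; omega
      · have := ((hTm x).mp hx).2; omega
    · intro x hx h1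
      rw [Finset.mem_union] at hx
      rcases hx with hx | hx
      · obtain ⟨w, hw, h2⟩ := hF1 x hx h1
        exact ⟨w, Finset.mem_union_left _ hw, h2⟩
      · refine ⟨p1 x, Finset.mem_union_left _ (hSF ?_), hp1 x h1⟩
        simp only [hS', Finset.mem_union]
        exact Or.inl (Or.inr (Finset.mem_image_of_mem _ hx))
    · intro x hx z hz hxz hh
      rw [Finset.mem_union] at hx hz
      rcases Nat.lt_or_ge (h x) (n + 1) with h1 | h1
      · have hxF : x ∈ F := by
          rcases hx with hx | hx
          · exact hx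
          · have := ((hTm x).mp hx).2; omega
        have hzF : z ∈ F := by
          rcases hz with hz | hz
          · exact hz
          · have := ((hTm z).mp hz).2; omega
        obtain ⟨w, hw, h2⟩ := hF2 x hxF z hzF hxz hh
        exact ⟨w, Finset.mem_union_left _ hw, h2⟩
      · have hxT : x ∈ T := by
          rcases hx with hx | hx
          · have := hFn x hx; omega
          · exact hx
        have hzT : z ∈ T := by
          rcases hz with hz | hz
          · have := hFn z hz; omega
          · exact hz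
        refine ⟨p2 (x, z), Finset.mem_union_left _ (hSF ?_), hp2 x z hxz hh⟩
        simp only [hS', Finset.mem_union]
        right
        apply Finset.mem_image_of_mem
        simp only [Finset.mem_filter, Finset.mem_product]
        exact ⟨⟨hxT, hzT⟩, hxz⟩

end Closure

/-- Every finite vertex set of a graph without isometric cycles of length at least `4` lies in a
finite vertex set inducing a graph without isometric cycles of length at least `4`. -/
theorem main (G : SimpleGraph V) (hG : ∀ L, 4 ≤ L → ¬ ∃ c, IsoCyc G L c) (S : Finset V) :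
    ∃ T : Finset V, S ⊆ T ∧ ∀ L, 4 ≤ L → ¬ ∃ c, IsoCyc (G.induce (T : Set V)) L c := by
  classical
  have h4 : NoC4 G := noC4_of_noIso (hG 4 (by norm_num))
  have h5 : NoC5 G := noC5_of_noIso (hG 5 (by norm_num))
  have hLC : ∀ k, LowClique G k := fun k =>
    (AB_bound h4 h5 (N := 2 * k) (fun L hL _ => hG L (by omega)) k).1 le_rfl
  have hTC : ∀ k, 1 ≤ k → TriCond G k := fun k hk =>
    (AB_bound h4 h5 (N := 2 * k + 1) (fun L hL _ => hG L (by omega)) k).2 hk le_rfl
  set rep : V → V := fun v => (G.connectedComponentMk v).out with hrep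
  have hreach : ∀ v, G.Reachable (rep v) v := fun v =>
    ConnectedComponent.exact (Quot.out_eq (G.connectedComponentMk v))
  have hrepadj : ∀ x z, G.Adj x z → rep x = rep z := by
    intro x z hxz
    simp only [hrep]
    rw [ConnectedComponent.sound hxz.reachable]
  set h : V → ℕ := fun v => G.dist (rep v) v with hh
  have P0 : ∀ x z, G.Adj x z → h z ≤ h x + 1 := by
    intro x z hxz
    simp only [hh]
    rw [← hrepadj x z hxz]
    exact lip hxz
  have P1 : ∀ x, 1 ≤ h x → ∃ w, G.Adj x w ∧ h w + 1 = h x := by
    intro x hx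
    obtain ⟨k, hk⟩ : ∃ k, h x = k + 1 := ⟨h x - 1, by omega⟩
    obtain ⟨w, hw, hwk⟩ := exists_pred (u := rep x) (x := x) hk
    refine ⟨w, hw, ?_⟩
    rw [hk]
    simp only [hh]
    rw [← hrepadj x w hw, hwk]
  have P2 : ∀ x z, G.Adj x z → h x = h z → ∃ w, G.Adj w x ∧ G.Adj w z ∧ h w + 1 = h x := by
    intro x z hxz hhh
    have hr := hrepadj x z hxz
    rcases Nat.eq_zero_or_pos (h x) with h0 | h0
    · exfalso
      have e1 : rep x = x := (hreach x).dist_eq_zero_iff.mp h0
      have h0' : h z = 0 := by omega
      have e2 : rep z = z := (hreach z).dist_eq_zero_iff.mp h0'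
      exact hxz.ne (by rw [← e1, ← e2, hr])
    · obtain ⟨w, hwx, hwz, hdw⟩ := hTC (h x) h0 (rep x) x z hxz rfl (by rw [hr]; exact hhh.symm)
      refine ⟨w, hwx, hwz, ?_⟩
      have : rep w = rep x := hrepadj w x hwx
      simp only [hh] at hdw ⊢
      rw [this]
      exact hdw
  have P3 : ∀ x a b, G.Adj x a → G.Adj x b → h a + 1 = h x → h b + 1 = h x →
      a = b ∨ G.Adj a b := by
    intro x a b ha hb hha hhb
    have e1 := hrepadj x a ha
    have e2 := hrepadj x b hb
    refine hLC (h x) (rep x) x a b rfl ha hb ?_ ?_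
    · rw [e1]; exact hha
    · rw [e2]; exact hhb
  obtain ⟨T, hST, _, hT1, hT2⟩ := exists_closure h P1 P2 (S.sup h) S
    (fun x hx => Finset.le_sup hx)
  refine ⟨T, hST, ?_⟩
  have hfin : Finite ((T : Set V) : Type _) := T.finite_toSet
  apply noIso_of_heights (H := G.induce (T : Set V)) (h := fun x => h x.1)
  · intro x z hxz
    exact P0 x.1 z.1 hxz
  · intro x hx
    obtain ⟨w, hw, h1, h2⟩ := hT1 x.1 x.2 hx
    exact ⟨⟨w, hw⟩, h1, h2⟩
  · intro x z hxz hhh
    obtain ⟨w, hw, h1, h2, h3⟩ := hT2 x.1 x.2 z.1 z.2 hxz hhh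
    exact ⟨⟨w, hw⟩, h1, h2, h3⟩
  · intro x a b ha hb hha hhb
    rcases P3 x.1 a.1 b.1 ha hb hha hhb with e | e
    · exact Or.inl (Subtype.ext e)
    · exact Or.inr e
  · intro a b c d hab hbc hcd hda
    rcases h4 a.1 b.1 c.1 d.1 hab hbc hcd hda with e | e | e | e
    · exact Or.inl (Subtype.ext e)
    · exact Or.inr (Or.inl (Subtype.ext e))
    · exact Or.inr (Or.inr (Or.inl e))
    · exact Or.inr (Or.inr (Or.inr e))
  · intro a b c d e hab hbc hcd hde hea
    rcases h5 a.1 b.1 c.1 d.1 e.1 hab hbc hcd hde hea with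
      (q | q | q | q | q) | (q | q | q | q | q)
    · exact Or.inl (Or.inl (Subtype.ext q))
    · exact Or.inl (Or.inr (Or.inl (Subtype.ext q)))
    · exact Or.inl (Or.inr (Or.inr (Or.inl (Subtype.ext q))))
    · exact Or.inl (Or.inr (Or.inr (Or.inr (Or.inl (Subtype.ext q)))))
    · exact Or.inl (Or.inr (Or.inr (Or.inr (Or.inr (Subtype.ext q)))))
    · exact Or.inr (Or.inl q)
    · exact Or.inr (Or.inr (Or.inl q))
    · exact Or.inr (Or.inr (Or.inr (Or.inl q)))
    · exact Or.inr (Or.inr (Or.inr (Or.inr (Or.inl q))))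
    · exact Or.inr (Or.inr (Or.inr (Or.inr (Or.inr q))))

end Pool.Agent.V11132.Bridged
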