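import Mathlib

set_option autoImplicit false

/-!
Mixed resolving sets of size at most twice the cyclomatic number.
-/

namespace Pool.Agent.V11132.Mixed

open SimpleGraph

variable {V : Type*}

/-- distance from a vertex to an edge -/
noncomputable def edgeDist (G : SimpleGraph V) (s : V) (e : Sym2 V) : ℕ :=
  Sym2.lift ⟨fun a b => min (G.dist s a) (G.dist s b), fun _ _ => min_comm _ _⟩ e

theorem edgeDist_mk (G : SimpleGraph V) (s a b : V) :
    edgeDist G s s(a, b) = min (G.dist s a) (G.dist s b) := rfl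

/-- `S` distinguishes all pairs of vertices, all pairs of edges and all vertex-edge pairs -/
def Good (G : SimpleGraph V) (S : Finset V) : Prop :=
  (∀ x y : V, x ≠ y → ∃ σ ∈ S, G.dist σ x ≠ G.dist σ y) ∧
  (∀ (x : V) (e : Sym2 V), e ∈ G.edgeSet → ∃ σ ∈ S, G.dist σ x ≠ edgeDist G σ e) ∧
  (∀ e f : Sym2 V, e ∈ G.edgeSet → f ∈ G.edgeSet → e ≠ f →
    ∃ σ ∈ S, edgeDist G σ e ≠ edgeDist G σ f)

section core

variable {G : SimpleGraph V}

theorem lip {u a b : V} (h : G.Adj a b) : G.dist u b ≤ G.dist u a + 1 := by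
  have := h.diff_dist_adj (u := u)
  omega

theorem exists_pred (hconn : G.Connected) {u x : V} {k : ℕ} (hk : G.dist u x = k + 1) :
    ∃ w, G.Adj x w ∧ G.dist u w = k := by
  obtain ⟨w, hw⟩ := hconn.exists_walk_length_eq_dist u x
  have hwk : w.length = k + 1 := by omega
  have hadj : G.Adj (w.getVert k) (w.getVert (k + 1)) := w.adj_getVert_succ (by omega)
  have hx : w.getVert (k + 1) = x := by rw [← hwk]; simp
  rw [hx] at hadj
  refine ⟨w.getVert k, hadj.symm, ?_⟩
  have h1 : G.dist u (w.getVert k) ≤ k := by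
    have := dist_le (w.take k)
    rw [Walk.take_length] at this
    omega
  have h2 := lip (u := u) hadj
  omega

/-- `z` lies below `x` (with respect to the root `r`) -/
def Below (G : SimpleGraph V) (r x z : V) : Prop := G.dist x z + G.dist r x = G.dist r z

theorem below_of_lower (hconn : G.Connected) {r x z w : V} (h : Below G r x z) (hzw : G.Adj z w)
    (hw : G.dist r w = G.dist r z + 1) : Below G r x w := by
  unfold Below at *
  have h1 := lip (u := x) hzw
  have h2 : G.dist r w ≤ G.dist r x + G.dist x w := hconn.dist_triangle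
  omega

theorem below_pred (hconn : G.Connected) {r x z : V} (h : Below G r x z) (hne : x ≠ z) :
    ∃ w, G.Adj z w ∧ G.dist r w + 1 = G.dist r z ∧ Below G r x w := by
  have hpos : 0 < G.dist x z := hconn.pos_dist_of_ne hne
  obtain ⟨k, hk⟩ : ∃ k, G.dist x z = k + 1 := ⟨G.dist x z - 1, by omega⟩
  obtain ⟨w, hw, hwk⟩ := exists_pred hconn hk
  have h1 : G.dist r w ≤ G.dist r x + G.dist x w := hconn.dist_triangle
  have h2 := lip (u := r) hw.symm
  unfold Below at *
  refine ⟨w, hw, by omega, by omega⟩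

/-- the hypotheses on the chosen spanning tree and the set `S` -/
structure Setup (G : SimpleGraph V) (r t s : V) (par : V → V) (S : Set V) : Prop where
  conn : G.Connected
  padj : ∀ x, x ≠ r → G.Adj x (par x)
  plev : ∀ x, x ≠ r → G.dist r (par x) + 1 = G.dist r x
  rule : ∀ x, x ≠ r → x ≠ t → (∃ y, G.Adj x y ∧ G.dist r y + 1 = G.dist r x ∧ ¬ Below G r t y) →
    ¬ Below G r t (par x)
  deg2 : ∀ v a, ∃ w, G.Adj v w ∧ w ≠ a
  deg3 : ∀ a b, ∃ w, G.Adj t w ∧ w ≠ a ∧ w ≠ b
  ts : G.Adj t s
  hst : G.dist r s ≤ G.dist r t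
  rS : r ∈ S
  sS : s ∈ S
  cot : ∀ a b, G.Adj a b → (a ≠ r → par a ≠ b) → (b ≠ r → par b ≠ a) → a ∈ S ∨ (a = t ∧ b = s)

namespace Setup

variable {r t s : V} {par : V → V} {S : Set V}

theorem ne_r (H : Setup G r t s par S) {x : V} (hx : 1 ≤ G.dist r x) : x ≠ r := by
  rintro rfl
  simp at hx

/-- an edge between levels that is not a parent edge of its lower end -/
theorem cot_up (H : Setup G r t s par S) {w z : V} (hzw : G.Adj z w)
    (hl : G.dist r w + 1 = G.dist r z) (hp : w ≠ par z) : w ∈ S := by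
  have q1 : w ≠ r → par w ≠ z := by
    intro hw e
    have := H.plev w hw
    rw [e] at this
    omega
  have q2 : z ≠ r → par z ≠ w := by
    intro _ e
    exact hp e.symm
  rcases H.cot w z hzw.symm q1 q2 with h | ⟨h1, h2⟩
  · exact h
  · exfalso
    have := H.hst
    rw [← h1, ← h2] at this
    omega

/-- a horizontal edge has both ends in `S` unless it is the edge `st` -/
theorem cot_hor (H : Setup G r t s par S) {a b : V} (hab : G.Adj a b)
    (hl : G.dist r a = G.dist r b) : a ∈ S ∨ (a = t ∧ b = s) := by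
  apply H.cot a b hab
  · intro ha e
    have := H.plev a ha
    rw [e] at this
    omega
  · intro hb e
    have := H.plev b hb
    rw [e] at this
    omega

theorem exists_below [Finite V] (H : Setup G r t s par S) {v : V} (hv : v ≠ r) :
    ∃ σ ∈ S, Below G r v σ := by
  classical
  have hne : {z | Below G r v z}.Nonempty := ⟨v, by simp [Below]⟩
  obtain ⟨σ, hσ, hmax⟩ := (Set.toFinite {z | Below G r v z}).exists_maximalFor
    (fun z => G.dist r z) _ hne
  have hσb : Below G r v σ := hσ
  have hpos : 0 < G.dist r v := H.conn.pos_dist_of_ne (Ne.symm hv)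
  have hσr : σ ≠ r := by
    apply H.ne_r
    unfold Below at hσb
    omega
  have key : ∀ w, G.Adj σ w → w ≠ par σ → σ ∈ S ∨ (σ = t ∧ w = s) := by
    intro w hw hne
    apply H.cot σ w hw
    · intro _ e; exact hne e.symm
    · intro hwr e
      have h1 := H.plev w hwr
      rw [e] at h1
      have h2 : Below G r v w := below_of_lower H.conn hσb hw (by omega)
      have h3 := hmax h2
      simp only at h3
      have h4 := h3 (by omega)
      omega
  by_cases hσt : σ = t
  · obtain ⟨w, hw, h1, h2⟩ := H.deg3 (par σ) s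
    rw [← hσt] at hw
    rcases key w hw h1 with h | ⟨_, h⟩
    · exact ⟨σ, h, hσb⟩
    · exact absurd h h2
  · obtain ⟨w, hw, h1⟩ := H.deg2 σ (par σ)
    rcases key w hw h1 with h | ⟨h, _⟩
    · exact ⟨σ, h, hσb⟩
    · exact absurd h hσt

theorem sep [Finite V] (H : Setup G r t s par S) {x y : V} (hxy : x ≠ y)
    (hl : G.dist r x = G.dist r y) :
    ∃ σ ∈ S, (Below G r x σ ∧ ¬ Below G r y σ) ∨ (Below G r y σ ∧ ¬ Below G r x σ) := by
  classical
  by_contra hcon
  push Not at hcon
  have hxr : x ≠ r := by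
    rintro rfl
    rw [dist_self] at hl
    exact hxy (H.conn.dist_eq_zero_iff.mp hl.symm)
  obtain ⟨σ, hσS, hσ⟩ := H.exists_below hxr
  have hσ' : Below G r y σ := (hcon σ hσS).1 hσ
  have hne : {z | Below G r x z ∧ Below G r y z}.Nonempty := ⟨σ, hσ, hσ'⟩
  obtain ⟨z, ⟨hzx, hzy⟩, hmin⟩ := (Set.toFinite {z | Below G r x z ∧ Below G r y z}).exists_minimalFor
    (fun z => G.dist r z) _ hne
  have hxz : x ≠ z := by
    rintro rfl
    unfold Below at hzy
    have : G.dist y x = 0 := by omega
    exact hxy (H.conn.dist_eq_zero_iff.mp this).symm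
  have hyz : y ≠ z := by
    rintro rfl
    unfold Below at hzx
    have : G.dist x y = 0 := by omega
    exact hxy (H.conn.dist_eq_zero_iff.mp this)
  obtain ⟨x', hx'1, hx'2, hx'3⟩ := below_pred H.conn hzx hxz
  obtain ⟨y', hy'1, hy'2, hy'3⟩ := below_pred H.conn hzy hyz
  have hx'y : ¬ Below G r y x' := by
    intro h
    have := hmin ⟨hx'3, h⟩
    simp only at this
    have := this (by omega)
    omega
  have hy'x : ¬ Below G r x y' := by
    intro h
    have := hmin ⟨h, hy'3⟩
    simp only at this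
    have := this (by omega)
    omega
  have hne' : x' ≠ y' := by rintro rfl; exact hx'y hy'3
  by_cases hp : x' = par z
  · have hS : y' ∈ S := H.cot_up hy'1 hy'2 (by rw [← hp]; exact hne'.symm)
    exact hy'x ((hcon y' hS).2 hy'3)
  · have hS : x' ∈ S := H.cot_up hx'1 hx'2 hp
    exact hx'y ((hcon x' hS).1 hx'3)

/-- the special pair `s`, `st` -/
theorem special [Finite V] (H : Setup G r t s par S) (hl : G.dist r s = G.dist r t) :
    ∃ σ ∈ S, Below G r t σ ∧ ¬ Below G r s σ := by
  classical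
  by_contra hcon
  push Not at hcon
  have hts : t ≠ s := H.ts.ne
  have htr : t ≠ r := by
    rintro rfl
    rw [dist_self] at hl
    exact hts (H.conn.dist_eq_zero_iff.mp hl)
  obtain ⟨σ, hσS, hσ⟩ := H.exists_below htr
  have hσ' : Below G r s σ := hcon σ hσS hσ
  have hne : {z | Below G r t z ∧ Below G r s z}.Nonempty := ⟨σ, hσ, hσ'⟩
  obtain ⟨z, ⟨hzx, hzy⟩, hmin⟩ := (Set.toFinite {z | Below G r t z ∧ Below G r s z}).exists_minimalFor
    (fun z => G.dist r z) _ hne
  have hxz : t ≠ z := by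
    rintro rfl
    unfold Below at hzy
    have : G.dist s t = 0 := by omega
    exact hts (H.conn.dist_eq_zero_iff.mp this).symm
  have hyz : s ≠ z := by
    rintro rfl
    unfold Below at hzx
    have : G.dist t s = 0 := by omega
    exact hts (H.conn.dist_eq_zero_iff.mp this)
  obtain ⟨x', hx'1, hx'2, hx'3⟩ := below_pred H.conn hzx hxz
  obtain ⟨y', hy'1, hy'2, hy'3⟩ := below_pred H.conn hzy hyz
  have hx'y : ¬ Below G r s x' := by
    intro h
    have := hmin ⟨hx'3, h⟩
    simp only at this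
    have := this (by omega)
    omega
  have hy'x : ¬ Below G r t y' := by
    intro h
    have := hmin ⟨h, hy'3⟩
    simp only at this
    have := this (by omega)
    omega
  have hzr : z ≠ r := H.ne_r (by omega)
  have hpar := H.rule z hzr hxz.symm ⟨y', hy'1, hy'2, hy'x⟩
  have hS : x' ∈ S := H.cot_up hx'1 hx'2 (by rintro e; exact hpar (e ▸ hx'3))
  exact hx'y (hcon x' hS hx'3)

theorem below_dist_le (H : Setup G r t s par S) {x σ : V} :
    G.dist r σ ≤ G.dist σ x + G.dist r x := by
  have : G.dist r σ ≤ G.dist r x + G.dist x σ := H.conn.dist_triangle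
  rw [SimpleGraph.dist_comm (u := σ)]
  omega

theorem below_iff (H : Setup G r t s par S) {x σ : V} :
    Below G r x σ ↔ G.dist σ x + G.dist r x = G.dist r σ := by
  unfold Below
  rw [SimpleGraph.dist_comm (u := σ)]

theorem vv [Finite V] (H : Setup G r t s par S) {x y : V} (hxy : x ≠ y) :
    ∃ σ ∈ S, G.dist σ x ≠ G.dist σ y := by
  by_cases hl : G.dist r x = G.dist r y
  · obtain ⟨σ, hσ, h⟩ := H.sep hxy hl
    refine ⟨σ, hσ, ?_⟩
    rw [H.below_iff, H.below_iff] at h
    omega
  · exact ⟨r, H.rS, hl⟩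

/-- vertex against a vertical edge `ab`, `b` the lower end -/
theorem ve_vert [Finite V] (H : Setup G r t s par S) {x a b : V} 
    (hlev : G.dist r b = G.dist r a + 1) (hx : G.dist r x = G.dist r a) :
    ∃ σ ∈ S, G.dist σ x ≠ min (G.dist σ a) (G.dist σ b) := by
  have hbr : b ≠ r := H.ne_r (by omega)
  obtain ⟨σ, hσ, hb⟩ := H.exists_below hbr
  refine ⟨σ, hσ, ?_⟩
  rw [H.below_iff] at hb
  have := H.below_dist_le (x := x) (σ := σ)
  omega

/-- vertex against a horizontal edge -/
theorem ve_hor [Finite V] (H : Setup G r t s par S) {x a b : V} (hab : G.Adj a b)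
    (hlev : G.dist r b = G.dist r a) :
    ∃ σ ∈ S, G.dist σ x ≠ min (G.dist σ a) (G.dist σ b) := by
  have hane := hab.ne
  have key : ∀ a b : V, G.Adj a b → G.dist r b = G.dist r a → a ∈ S → b ∈ S →
      ∃ σ ∈ S, G.dist σ x ≠ min (G.dist σ a) (G.dist σ b) := by
    intro a b hab hlev ha hb
    by_cases hxa : x = a
    · refine ⟨b, hb, ?_⟩
      subst hxa
      have : 0 < G.dist b x := H.conn.pos_dist_of_ne hab.ne.symm
      rw [dist_self]
      omega
    · refine ⟨a, ha, ?_⟩
      have : 0 < G.dist a x := H.conn.pos_dist_of_ne (Ne.symm hxa)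
      rw [dist_self]
      omega
  have key2 : ∀ a b : V, a = t → b = s → G.dist r b = G.dist r a →
      ∃ σ ∈ S, G.dist σ x ≠ min (G.dist σ a) (G.dist σ b) := by
    intro a b ha hb hlev
    subst ha hb
    by_cases hxs : x = b
    · subst hxs
      obtain ⟨σ, hσ, h1, h2⟩ := H.special hlev
      refine ⟨σ, hσ, ?_⟩
      rw [H.below_iff] at h1 h2
      have := H.below_dist_le (x := x) (σ := σ)
      omega
    · refine ⟨b, H.sS, ?_⟩
      have : 0 < G.dist b x := H.conn.pos_dist_of_ne (Ne.symm hxs)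
      rw [dist_self]
      omega
  rcases H.cot_hor hab hlev.symm with ha | ⟨ha, hb⟩
  · rcases H.cot_hor hab.symm hlev with hb | ⟨hb, ha'⟩
    · exact key a b hab hlev ha hb
    · obtain ⟨σ, hσ, h⟩ := key2 b a hb ha' hlev.symm
      refine ⟨σ, hσ, ?_⟩
      rw [min_comm]
      exact h
  · exact key2 a b ha hb hlev

theorem ve [Finite V] (H : Setup G r t s par S) (x : V) (e : Sym2 V) (he : e ∈ G.edgeSet) :
    ∃ σ ∈ S, G.dist σ x ≠ edgeDist G σ e := by
  induction e using Sym2.ind with
  | _ a b =>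
    rw [mem_edgeSet] at he
    simp only [edgeDist_mk]
    by_cases hr : G.dist r x = min (G.dist r a) (G.dist r b)
    · have h1 := lip (u := r) he
      have h2 := lip (u := r) he.symm
      rcases Nat.lt_trichotomy (G.dist r a) (G.dist r b) with h | h | h
      · exact H.ve_vert (by omega) (by omega)
      · exact H.ve_hor he h.symm
      · obtain ⟨σ, hσ, h'⟩ := H.ve_vert (x := x) (a := b) (b := a) (by omega) (by omega)
        refine ⟨σ, hσ, ?_⟩
        rw [min_comm]
        exact h'
    · exact ⟨r, H.rS, hr⟩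

/-- two vertical edges -/
theorem ee_vert [Finite V] (H : Setup G r t s par S) {a b c d : V} (hab : G.Adj a b)
    (hcd : G.Adj c d) (h1 : G.dist r b = G.dist r a + 1) (h2 : G.dist r d = G.dist r c + 1)
    (h3 : G.dist r a = G.dist r c) (hne : s(a, b) ≠ s(c, d)) :
    ∃ σ ∈ S, min (G.dist σ a) (G.dist σ b) ≠ min (G.dist σ c) (G.dist σ d) := by
  by_cases hbd : b = d
  · subst hbd
    have hac : a ≠ c := by rintro rfl; exact hne rfl
    by_cases hp : a = par b
    · have hS : c ∈ S := H.cot_up hcd.symm (by omega) (by rw [← hp]; exact hac.symm)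
      refine ⟨c, hS, ?_⟩
      have e1 : 0 < G.dist c a := H.conn.pos_dist_of_ne hac.symm
      have e2 : 0 < G.dist c b := H.conn.pos_dist_of_ne hcd.ne
      rw [dist_self]
      omega
    · have hS : a ∈ S := H.cot_up hab.symm (by omega) hp
      refine ⟨a, hS, ?_⟩
      have e1 : 0 < G.dist a c := H.conn.pos_dist_of_ne hac
      have e2 : 0 < G.dist a b := H.conn.pos_dist_of_ne hab.ne
      rw [dist_self]
      omega
  · obtain ⟨σ, hσ, h⟩ := H.sep hbd (by omega)
    refine ⟨σ, hσ, ?_⟩
    rw [H.below_iff, H.below_iff] at h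
    have e1 := H.below_dist_le (x := a) (σ := σ)
    have e2 := H.below_dist_le (x := b) (σ := σ)
    have e3 := H.below_dist_le (x := c) (σ := σ)
    have e4 := H.below_dist_le (x := d) (σ := σ)
    omega

/-- a vertical and a horizontal edge -/
theorem ee_mix [Finite V] (H : Setup G r t s par S) {a b c d : V}
    (h1 : G.dist r b = G.dist r a + 1) (h2 : G.dist r d = G.dist r c)
    (h3 : G.dist r a = G.dist r c) :
    ∃ σ ∈ S, min (G.dist σ a) (G.dist σ b) ≠ min (G.dist σ c) (G.dist σ d) := by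
  have hbr : b ≠ r := H.ne_r (by omega)
  obtain ⟨σ, hσ, hb⟩ := H.exists_below hbr
  refine ⟨σ, hσ, ?_⟩
  rw [H.below_iff] at hb
  have e3 := H.below_dist_le (x := c) (σ := σ)
  have e4 := H.below_dist_le (x := d) (σ := σ)
  omega

theorem ee_hor_aux (H : Setup G r t s par S) {a b c d : V} (hab : G.Adj a b)
    (ha : a ∈ S) (hb : b ∈ S) (hne : s(a, b) ≠ s(c, d)) :
    ∃ σ ∈ S, min (G.dist σ a) (G.dist σ b) ≠ min (G.dist σ c) (G.dist σ d) := by
  by_contra hcon
  push Not at hcon
  have h1 := hcon a ha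
  have h2 := hcon b hb
  rw [dist_self] at h1 h2
  have h3 : G.dist a c = 0 ∨ G.dist a d = 0 := by omega
  have h4 : G.dist b c = 0 ∨ G.dist b d = 0 := by omega
  have hn := hab.ne
  rw [H.conn.dist_eq_zero_iff, H.conn.dist_eq_zero_iff] at h3 h4
  rcases h3 with rfl | rfl
  · rcases h4 with h4 | rfl
    · exact hn h4.symm
    · exact hne rfl
  · rcases h4 with rfl | h4
    · exact hne Sym2.eq_swap
    · exact hn h4.symm

/-- two horizontal edges -/
theorem ee_hor (H : Setup G r t s par S) {a b c d : V} (hab : G.Adj a b)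
    (hcd : G.Adj c d) (h1 : G.dist r b = G.dist r a) (h2 : G.dist r d = G.dist r c)
    (hne : s(a, b) ≠ s(c, d)) :
    ∃ σ ∈ S, min (G.dist σ a) (G.dist σ b) ≠ min (G.dist σ c) (G.dist σ d) := by
  have key : ∀ a b : V, G.Adj a b → G.dist r b = G.dist r a → s(a, b) ≠ s(s, t) →
      a ∈ S ∧ b ∈ S := by
    intro a b hab h1 hne'
    refine ⟨?_, ?_⟩
    · rcases H.cot_hor hab h1.symm with h | ⟨h, h'⟩
      · exact h
      · exfalso; apply hne'; rw [h, h']; exact Sym2.eq_swap
    · rcases H.cot_hor hab.symm h1 with h | ⟨h, h'⟩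
      · exact h
      · exfalso; apply hne'; rw [h, h']
  by_cases hc : s(a, b) = s(s, t)
  · obtain ⟨hcS, hdS⟩ := key c d hcd h2 (by rw [← hc]; exact hne.symm)
    obtain ⟨σ, hσ, h⟩ := H.ee_hor_aux hcd hcS hdS hne.symm
    exact ⟨σ, hσ, h.symm⟩
  · obtain ⟨haS, hbS⟩ := key a b hab h1 hc
    exact H.ee_hor_aux hab haS hbS hne

theorem ee [Finite V] (H : Setup G r t s par S) (e f : Sym2 V) (he : e ∈ G.edgeSet)
    (hf : f ∈ G.edgeSet) (hne : e ≠ f) : ∃ σ ∈ S, edgeDist G σ e ≠ edgeDist G σ f := by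
  by_cases hr : edgeDist G r e = edgeDist G r f
  swap
  · exact ⟨r, H.rS, hr⟩
  -- choose the ends so that the first end is not lower
  have norm : ∀ e : Sym2 V, e ∈ G.edgeSet → ∃ a b, e = s(a, b) ∧ G.Adj a b ∧
      (G.dist r b = G.dist r a ∨ G.dist r b = G.dist r a + 1) := by
    intro e he
    induction e using Sym2.ind with
    | _ a b =>
      rw [mem_edgeSet] at he
      have h1 := lip (u := r) he
      have h2 := lip (u := r) he.symm
      rcases Nat.lt_trichotomy (G.dist r a) (G.dist r b) with h | h | h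
      · exact ⟨a, b, rfl, he, Or.inr (by omega)⟩
      · exact ⟨a, b, rfl, he, Or.inl h.symm⟩
      · exact ⟨b, a, Sym2.eq_swap, he.symm, Or.inr (by omega)⟩
  obtain ⟨a, b, rfl, hab, hl1⟩ := norm e he
  obtain ⟨c, d, rfl, hcd, hl2⟩ := norm f hf
  simp only [edgeDist_mk] at hr ⊢
  have hac : G.dist r a = G.dist r c := by omega
  rcases hl1 with hl1 | hl1
  · rcases hl2 with hl2 | hl2
    · exact H.ee_hor hab hcd hl1 hl2 hne
    · obtain ⟨σ, hσ, h⟩ := H.ee_mix (a := c) (b := d) (c := a) (d := b) hl2 hl1 hac.symm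
      exact ⟨σ, hσ, h.symm⟩
  · rcases hl2 with hl2 | hl2
    · exact H.ee_mix hl1 hl2 hac
    · exact H.ee_vert hab hcd hl1 hl2 hac hne

end Setup

end core

end Pool.Agent.V11132.Mixed
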